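import Pool.Agent.P.MP_e4ac67_pr.S.Load2
import Pool.Agent.P.MP_e4ac67_pr.V.TubeL
import Pool.Agent.P.MP_e4ac67_pr.Mu

/-! Exits, and the comparison of the connective constants. -/

open scoped ENNReal

namespace Pool.Agent.P.MP_e4ac67_pr

theorem s_mu {V : Type} {G : SimpleGraph V} {v : V} {x ε : ℝ≥0∞} (hx : x ≠ ⊤) (h0 : ε ≠ 0)
    (H : ∀ m, ε ≤ ∑' l : List V, ind ((l.head? = some v ∧ l.IsChain G.Adj ∧ l.Nodup) ∧
      m < l.length) * x ^ l.length) : x⁻¹ ≤ connConst G v := by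
  by_contra e
  obtain ⟨y, h1, h2⟩ := exists_between (not_le.1 e)
  have h3 : y * x < 1 := by
    rcases eq_or_ne x 0 with rfl | x0
    · simp
    · rw [← ENNReal.inv_mul_cancel x0 hx]
      exact ENNReal.mul_lt_mul_left x0 hx h2
  have hC : (1 - y * x)⁻¹ * x ≠ ⊤ :=
    ENNReal.mul_ne_top (ENNReal.inv_ne_top.2 (tsub_pos_of_lt h3).ne') hx
  have h4 := ENNReal.Tendsto.mul_const (b := (1 - y * x)⁻¹ * x)
    (ENNReal.tendsto_pow_atTop_nhds_zero_of_lt_one h3) (Or.inr hC)
  rw [zero_mul] at h4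
  obtain ⟨n, hn⟩ := Filter.eventually_atTop.1 (Filter.eventually_lt_of_limsup_lt h1)
  obtain ⟨M, h5, h6⟩ := ((h4.eventually (gt_mem_nhds (pos_iff_ne_zero.2 h0))).and
    (Filter.eventually_ge_atTop (n + 1))).exists
  refine absurd ((H M).trans ?_) (not_le.2 h5)
  calc _ ≤ ∑' s : ℕ × List V, ind (s.2 ∈ {l : List V | l.length = M + s.1 + 1 ∧ l.head? = some v ∧
        l.IsChain G.Adj ∧ l.Nodup}) * x ^ (M + s.1 + 1) := by
        refine tsum_le_of_dec _ _ Prod.snd fun l hl => ?_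
        obtain ⟨g1, g2⟩ := of_ind_mul_ne hl
        have e : l.length = M + (l.length - M - 1) + 1 := by omega
        exact ⟨(l.length - M - 1, l), rfl, ind_mul_le fun _ => by
          simp only [Set.mem_ofPred_eq]
          rw [ind_of (And.intro e g1), one_mul, ← e]⟩
    _ ≤ ∑' j : ℕ, (y * x) ^ M * ((y * x) ^ j * x) := by
        rw [ENNReal.tsum_prod']
        refine ENNReal.tsum_le_tsum fun j => ?_
        simp only [ENNReal.tsum_mul_right, tsum_ind_mem]
        have g1 := (hn (M + j) (by omega)).le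
        have g2 : (0 : ℝ) < (M + j : ℕ) := by exact_mod_cast (by omega : 0 < M + j)
        have g3 := pow_le_pow_left' g1 (M + j)
        rw [← ENNReal.rpow_natCast, ← ENNReal.rpow_mul, one_div_mul_cancel g2.ne',
          ENNReal.rpow_one] at g3
        exact (mul_le_mul_left g3 _).trans (le_of_eq (by ring))
    _ = _ := by rw [ENNReal.tsum_mul_left, ENNReal.tsum_mul_right, ENNReal.tsum_geometric]

theorem s_geo {V : Type} (T : PlaneTri V) (v : V) (n : ℕ) (p : V) (h : T.d v p = n) : ∃ l : List V,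
    (l ++ [p]).head? = some v ∧ (l ++ [p]).IsChain T.G.Adj ∧ l.Nodup ∧ ∀ w ∈ l, T.d v w < n := by
  induction n generalizing p with
  | zero => exact ⟨[], by simp [PlaneTri.d_eq_zero.1 h], by simp, by simp, by simp⟩
  | succ n ih =>
    obtain ⟨q, h1, h2⟩ := PlaneTri.geo_parent h
    obtain ⟨l, g1, g2, g3, g4⟩ := ih q h2
    refine ⟨l ++ [q], by rw [List.head?_append, g1]; rfl, ?_, ?_, fun w hw => ?_⟩
    · rw [List.append_assoc]
      exact List.isChain_split.2 ⟨g2, List.isChain_pair.2 h1.symm⟩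
    · exact List.nodup_append.2 ⟨g3, by simp, fun a ha b hb e => by
        have := g4 a ha
        rw [e, List.mem_singleton.1 hb] at this
        omega⟩
    · rcases List.mem_append.1 hw with e | e
      · have := g4 w e; omega
      · rw [List.mem_singleton.1 e]; omega

namespace Gr
namespace Grid
variable {G : Grid} {k : ℕ} {o : Pt} {N : ℕ} {y : Pt} {γ : List Pt} {x x₀ h iv r θ : ℝ≥0∞}

/-- a walk in forward order -/
theorem SWk.fwd (g : G.SWk o N γ) : ∃ β, γ = β.reverse ++ [o, G.nb o 0] ∧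
    (o :: β).IsChain G.Adj ∧ (o :: β).Nodup ∧ ∀ v ∈ β, G.Hm o N v := by
  obtain ⟨B, rfl⟩ := g.root
  have e : B ++ [o] <+: B ++ [o, G.nb o 0] := ⟨[G.nb o 0], by simp⟩
  refine ⟨B.reverse, by simp, ?_, ?_, fun v hv => ?_⟩
  · simpa using List.isChain_reverse.2 ((ch_pfx g.ch e).imp fun _ _ h => h.symm)
  · simpa using List.nodup_reverse.2 (g.nd.sublist e.sublist)
  · obtain ⟨s, t, rfl⟩ := List.append_of_mem (List.mem_reverse.1 hv)
    exact SWk.hm (s := s) (w := t ++ [o, G.nb o 0]) (by simpa using g) (by simp)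

theorem s_exit {i : ℕ} {a : ℤ} (h1 : G.Cn 0 o (o.1 + (i + 1), a))
    (h2 : G.Adj (o.1 + (i + 1), a) y) (h3 : ¬G.Cn 0 o y) : ∃ s j : Bool,
    a = (if s then G.rr o (i + 1) else G.lr o (i + 1)) ∧ y = (o.1 + cond j (i + 1) i,
      if s then G.rr o (cond j (i + 1) i) + 1 else G.lr o (cond j (i + 1) i) - 1) := by
  obtain ⟨m, b⟩ := y
  have h4 := cone_iff.1 h1
  rcases G.adj_iff.1 h2 with ⟨e, e'⟩ | ⟨e, e'⟩ | ⟨e, e1, e2⟩
  · obtain rfl : m = o.1 + (i + 1) := e
    rw [cone_iff] at h3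
    simp only at e'
    rcases e' with rfl | rfl
    · exact ⟨true, true, by simp; omega, by simp; omega⟩
    · exact ⟨false, true, by simp; omega, by simp; omega⟩
  · exact absurd (cone_child h1 e e') h3
  · obtain rfl : m = o.1 + i := by simp only at e; omega
    rw [cone_iff] at h3
    simp only [lr, rr] at h4 e1 e2 ⊢
    have g1 := (G.A_lt _).le_iff_le.1 (show G.A (o.1 + i) (G.lr o i - 1) ≤ G.A (o.1 + i) b by omega)
    have g2 := (G.A_lt _).le_iff_le.1 (show G.A (o.1 + i) (b - 1) ≤ G.A (o.1 + i) (G.rr o i) by omega)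
    rcases (by omega : b = G.rr o i + 1 ∨ b = G.lr o i - 1) with rfl | rfl
    · exact ⟨true, false, by simp at e1 ⊢; omega, by simp⟩
    · exact ⟨false, false, by simp; omega, by simp⟩

theorem s_side_le (ht : G.tau o = 0) (hx : x ≤ x₀) :
    G.SW o N x (fun _ y => ¬G.Cn 0 o y) ≤
      x₀ * (2 + 2 * (G.sGS (sawNm x₀ iv) o false + G.sGS (sawNm x₀ iv) o true)) := by
  classical
  rw [mul_add]
  refine (sw_split (A := fun γ y => ¬G.Cn 0 o y ∧ γ = [o, G.nb o 0])
    (B := fun γ y => ¬G.Cn 0 o y ∧ γ ≠ [o, G.nb o 0]) fun γ y _ g =>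
    (em _).imp (And.intro g) (And.intro g)).trans (add_le_add ?_ ?_)
  · refine (tsum_le_of_dec _ (fun _ : Bool => x₀) (fun s => ([o, G.nb o 0],
      G.nb o (cond s 1 (G.gap o + 3)))) ?_).trans (by simp [mul_comm])
    rintro ⟨γ, y⟩ g
    obtain ⟨⟨-, g1, g2⟩, g3, rfl⟩ := of_ind_mul_ne g
    obtain ⟨j, h1, rfl⟩ := exists_nb (List.isChain_cons_cons.1 g1).1.symm
    have h2 : j = 1 ∨ j = G.gap o + 3 := by
      by_contra e
      have h3 : j ≠ 0 := fun e => g2 (by rw [e]; rfl)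
      have h4 := G.gap_eq o
      unfold dg at h1
      refine g3 (cone_child (v := o) (by simp [Cn, lr, rr]) ?_ ?_) <;>
        simp only [G.nb_ch o (show 2 ≤ j by omega) (by omega), Ch]
      omega
    rcases h2 with rfl | rfl
    exacts [⟨true, rfl, ind_mul_le fun _ => by simpa using hx⟩,
      ⟨false, rfl, ind_mul_le fun _ => by simpa using hx⟩]
  · refine (tsum_le_of_dec _ (fun s : Bool × Bool × ℕ × List Pt =>
      let e : Pt := (o.1 + (s.2.2.1 + 1),
        if s.2.1 then G.rr o (s.2.2.1 + 1) else G.lr o (s.2.2.1 + 1))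
      x₀ * (ind ((o :: s.2.2.2 ++ [e]).IsChain G.Adj ∧ (o :: s.2.2.2 ++ [e]).Nodup ∧
        ∀ v ∈ s.2.2.2, G.Cn 0 o v) * G.wt (sawNm x₀ iv) o o s.2.2.2 e (fun _ => True)
          (fun _ => True) (fun _ => False)))
      (fun s => ((o.1 + (s.2.2.1 + 1), if s.2.1 then G.rr o (s.2.2.1 + 1) else
        G.lr o (s.2.2.1 + 1)) :: s.2.2.2.reverse ++ [o, G.nb o 0],
        (o.1 + cond s.1 (s.2.2.1 + 1) s.2.2.1, if s.2.1 then G.rr o (cond s.1 (s.2.2.1 + 1) s.2.2.1) + 1
          else G.lr o (cond s.1 (s.2.2.1 + 1) s.2.2.1) - 1))) ?_).trans (le_of_eq ?_)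
    · rintro ⟨γ, y⟩ g
      obtain ⟨⟨g0, g1, -⟩, g3, g4⟩ := of_ind_mul_ne g
      obtain ⟨β, e, h1, h2, h3⟩ := g0.fwd
      simp only at e g1 g3 g4 ⊢
      subst e
      obtain ⟨I, v, rfl⟩ := (List.eq_nil_or_concat' β).resolve_left (by rintro rfl; simp at g4)
      obtain ⟨i, a, rfl⟩ := cone_ex (h3 v (by simp)).1
      obtain _ | i := i
      · have := cone_iff.1 (h3 (o.1 + 0, a) (by simp)).1
        obtain rfl : a = o.2 := by simp only [lr, rr] at this; omega
        simp at h2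
      obtain ⟨s, j, rfl, rfl⟩ := s_exit (h3 (o.1 + (i + 1), a) (by simp)).1 (by
        rw [List.reverse_append] at g1; exact (List.isChain_cons_cons.1 g1).1.symm) g3
      refine ⟨(j, s, i, I), by simp, ind_mul_le fun _ => ?_⟩
      simp only
      rw [← List.cons_append] at h1 h2
      rw [ind_of (And.intro h1 (And.intro h2 fun v (hv : v ∈ I) => (h3 v (by simp [hv])).1)), one_mul,
        wt_all fun _ => trivial, ← pow_succ']
      exact (pow_le_pow_left' hx _).trans (le_of_eq (congrArg _ (by simp)))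
    · simp only [ENNReal.tsum_prod' (f := fun s : Bool × _ => _), tsum_fintype, Fintype.sum_bool,
        ENNReal.tsum_mul_left, sGS]
      ring

theorem s_climb {l : List Pt} (h : (o :: l ++ [y]).IsChain G.Adj) : y.1 ≤ o.1 + l.length + 1 := by
  induction l generalizing o with
  | nil => have := G.adj_iff.1 (List.isChain_pair.1 h); simp only [List.length_nil]; omega
  | cons a l ih =>
    have h1 := G.adj_iff.1 (List.isChain_cons_cons.1 h).1
    have := ih (List.isChain_cons_cons.1 h).2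
    simp only [List.length_cons]
    omega

variable {V V' : Type} {T : PlaneTri V} {T' : PlaneTri V'}

theorem s_top_le (X : G.SCx G.Tb c4 k o) (E : Emb G T) : ∃ n, ∀ N,
    x ^ n * G.SW o N x (fun _ y => G.Cn 0 o y ∧ y.1 = o.1 + N + 1) ≤ ∑' l : List V,
      ind ((l.head? = some E.O ∧ l.IsChain T.G.Adj ∧ l.Nodup) ∧ N < l.length) * x ^ l.length := by
  obtain ⟨L, g1, g2, g3, g4⟩ := s_geo T E.O _ _ (E.lev o)
  refine ⟨L.length + 1, fun N => ?_⟩
  have key : ∀ γ y, x ^ (L.length + 1) * (ind (G.SSt o N γ y ∧ G.Cn 0 o y ∧ y.1 = o.1 + N + 1) *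
      x ^ (γ.length - 1)) ≠ 0 → ∃ β, γ = β.reverse ++ [o, G.nb o 0] ∧
      (o :: β ++ [y]).IsChain G.Adj ∧ (o :: β ++ [y]).Nodup ∧ N ≤ β.length ∧
      (∀ v ∈ o :: β ++ [y], G.Cn 0 o v) ∧ (y :: γ).dropLast.reverse = o :: β ++ [y] := by
    intro γ y g
    obtain ⟨⟨g0, g1, -⟩, g3, g4⟩ := of_ind_mul_ne (right_ne_zero_of_mul g)
    obtain ⟨β, rfl, -, h2, h3⟩ := g0.fwd
    have e : y :: β.reverse ++ [o] <+: y :: (β.reverse ++ [o, G.nb o 0]) := ⟨[G.nb o 0], by simp⟩
    have h4 : (o :: β ++ [y]).IsChain G.Adj := by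
      simpa using List.isChain_reverse.2 ((ch_pfx g1 e).imp fun _ _ h => h.symm)
    have h5 := s_climb h4
    refine ⟨β, rfl, h4, List.nodup_append.2 ⟨h2, by simp, fun a ha b hb e => ?_⟩, by omega,
      fun v hv => ?_, by rw [← List.cons_append, show [o, G.nb o 0] = [o] ++ [G.nb o 0] from rfl,
        ← List.append_assoc, List.dropLast_concat]; simp⟩
    · rw [List.mem_singleton.1 hb] at e
      rcases List.mem_cons.1 ha with e' | e'
      · rw [← e, e'] at g4; omega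
      · have := (h3 a e').2; rw [e] at this; omega
    · simp only [List.cons_append, List.mem_cons, List.mem_append, List.not_mem_nil, or_false] at hv
      rcases hv with rfl | e' | rfl
      exacts [by simp [Cn, lr, rr], (h3 v e').1, g3]
  rw [SW, ← ENNReal.tsum_mul_left]
  refine tsum_le_of_enc _ _ (fun s => L ++ (s.2 :: s.1).dropLast.reverse.map E.π) ?_ ?_
  · rintro ⟨γ, y⟩ ⟨γ', y'⟩ h h' e
    obtain ⟨β, rfl, -, -, -, h1, h2⟩ := key γ y h
    obtain ⟨β', rfl, -, -, -, h3, h4⟩ := key γ' y' h'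
    simp only [h2, h4] at e
    obtain ⟨e1, e2⟩ := List.append_inj' (s_map_inj (s_pi_inj X E) h1 h3
      (List.append_cancel_left e)) rfl
    rw [(List.cons.inj e1).2, (List.cons.inj e2).1]
  · rintro ⟨γ, y⟩ h
    obtain ⟨β, rfl, h1, h2, h3, h4, h5⟩ := key γ y h
    have := X.lev
    simp only [h5]
    refine (mul_le_mul_right (ind_mul_le fun _ => le_rfl) _).trans (le_trans (le_of_eq ?_)
      (mul_le_mul_left (ind_of ⟨⟨by simpa using g1, ?_, ?_⟩, by simp; omega⟩).ge _))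
    · rw [← pow_add, one_mul]
      exact congrArg _ (by simp; omega)
    · exact List.isChain_split.2 ⟨g2, (List.isChain_map E.π).2 (h1.imp_of_mem_imp fun a b ha _ =>
        E.adj (by have := (h4 a ha).1; omega))⟩
    · refine List.nodup_append.2 ⟨g3, h2.map_on fun a ha b hb => s_pi_inj X E a b (h4 a ha) (h4 b hb),
        fun a ha b hb e => ?_⟩
      obtain ⟨c, hc, rfl⟩ := List.mem_map.1 hb
      have h6 := g4 a ha
      have := (h4 c hc).1
      rw [e, E.lev] at h6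
      omega

end Grid

/-- the comparison of the connective constants, given the tables -/
theorem saw_cmp {V V' : Type} {T : PlaneTri V} {T' : PlaneTri V'} {k : ℕ} {x₀ h iv θ : ℝ≥0∞}
    (h7 : 7 ≤ k) (hT : ∀ v, k ≤ T.deg v) (hT' : ∀ v, T'.deg v = k) (tab : TabS k x₀ h iv θ)
    (hiv : max x₀⁻¹ h ≤ iv) (hθ : θ < 1) (h0 : x₀ ≠ 0) (h1 : x₀ ≠ ⊤) (v : V) (v' : V')
    (hμ : x₀⁻¹ ≤ connConst T.G v ∨ x₀⁻¹ < connConst T'.G v') :
    connConst T'.G v' ≤ connConst T.G v := by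
  have key : ∀ y, x₀⁻¹ ≤ y → y < connConst T'.G v' → y ≤ connConst T.G v := by
    intro y g1 g2
    have y0 : y ≠ 0 := fun e => h1 (by simpa [e] using g1)
    have yt : y⁻¹ ≠ 0 := ENNReal.inv_ne_zero.2 g2.ne_top
    have g3 : y⁻¹ ≤ x₀ := ENNReal.inv_le_iff_inv_le.1 g1
    have e : y⁻¹ * x₀⁻¹ * x₀ = y⁻¹ := by rw [mul_assoc, ENNReal.inv_mul_cancel h0 h1, mul_one]
    have hr : y⁻¹ * x₀⁻¹ ≤ 1 := ENNReal.mul_inv_cancel h0 h1 ▸ mul_le_mul_left g3 _
    have h7' : ∀ v, 7 ≤ T.deg v := fun v => h7.trans (hT v)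
    obtain ⟨G, E, rfl, -⟩ := exists_cen T h7' v
    have X : G.SCx G.Tb Grid.c4 k (G.rt (1, G.A 0 0)) := ⟨Grid.tubeOK G,
      fun z v a _ b => Or.inr (Grid.tb_of_nb (by omega) (by simp [Grid.c4]) (by simp [Grid.c4]) b),
      h7, fun v hv => E.deg v hv ▸ hT _, by simp [Grid.rt_lev], Grid.cone_trans
        (Grid.cone_child (v := (0, 0)) (by simp [Grid.Cn, Grid.lr, Grid.rr]) rfl
          ⟨(G.A_pred _ _).le, le_rfl⟩) (Grid.rt_cone _)⟩
    obtain ⟨n, hn⟩ := Grid.s_top_le (x := y⁻¹) X E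
    rw [← inv_inv y]
    refine s_mu (ε := y⁻¹ ^ n * (1 - θ)) (ENNReal.inv_ne_top.2 y0)
      (mul_ne_zero (pow_ne_zero _ yt) (tsub_pos_of_lt hθ).ne') fun N =>
      (mul_le_mul_right (tsub_le_iff_right.2 ?_) _).trans (hn N)
    refine (Grid.one_le_ex (N := N) X E hT hT' (ENNReal.inv_ne_top.2 y0) (PlaneTri.Mu.unb y0 g2)
      fun z a b => ?_).trans ((Grid.sw_split (C := fun _ w => ¬G.Hm _ N w) fun γ w c g => ?_).trans
      (add_le_add le_rfl ((Grid.s_side_le (Grid.rt_tau _) g3).trans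
        ((tab.2 G).2 _ (by simp [Grid.rt_lev]) (Grid.rt_tau _)))))
    · obtain ⟨K, c1, c2⟩ := (tab.2 G).1 z (by have := a.1.1; rwa [Grid.rt_lev] at this) b
      rw [← e]
      refine Grid.s_load X hr (fun u w => Grid.gn_le X E h7' (fun G u => le_trans ?_ (tab.1 G u)) u w)
        a b (e.trans_ne yt) h1 hiv c1 c2
      exact ENNReal.tsum_le_tsum fun l => mul_le_mul_right (pow_le_pow_left' (e.trans_le g3) _) _
    · refine (em _).imp_left fun a => ⟨a, ?_⟩
      obtain ⟨z, t, u, rfl, c1, -⟩ := c.1.shape X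
      have := G.adj_iff.1 (List.isChain_cons_cons.1 c.2.1).1
      have := c1.2
      have := mt (And.intro a) g
      omega
  refine le_of_forall_lt_imp_le_of_dense fun y hy => ?_
  rcases le_total x₀⁻¹ y with e | e
  exacts [key y e hy, e.trans (hμ.elim id (key _ le_rfl))]

end Gr
end Pool.Agent.P.MP_e4ac67_pr
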