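import Pool.Agent.P.MP_e4ac67_pr.S.Master
import Pool.Agent.P.MP_e4ac67_pr.A.Lat

/-! Grids centred at a given vertex; the sum over self-avoiding walks between two points. -/

open scoped ENNReal

namespace Pool.Agent.P.MP_e4ac67_pr.Gr
open Node

theorem Grid.adj_nb' {G : Grid} {v : Pt} {j : ℕ} (h1 : 1 ≤ j) (h2 : j ≤ G.gap v + 3) :
    G.Adj v (G.nb v j) := by
  have h3 := G.gap_eq v
  rw [Grid.adj_iff]
  rcases Grid.nb_cases (G := G) v j with ⟨h, e⟩ | ⟨h, e⟩ | ⟨h, h', e⟩ | ⟨h, e⟩ | ⟨h, e⟩ <;>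
    rw [e] <;> simp <;> omega

theorem s_map_inj {α β : Type} {f : α → β} {P : α → Prop} (h : ∀ a b, P a → P b → f a = f b → a = b)
    {l l' : List α} (h1 : ∀ a ∈ l, P a) (h2 : ∀ a ∈ l', P a) (e : l.map f = l'.map f) : l = l' := by
  induction l generalizing l' with
  | nil => simpa using e.symm
  | cons a l ih =>
    obtain _ | ⟨b, l'⟩ := l'
    · simp at e
    obtain ⟨e1, e2⟩ := List.cons.inj e
    rw [h a b (h1 a (by simp)) (h2 b (by simp)) e1, ih (fun v hv => h1 v (by simp [hv]))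
      (fun v hv => h2 v (by simp [hv])) e2]

theorem nb_lat' {D : List ℕ → ℕ} (hD : ∀ w, 7 ≤ D w) {v : Pt} {j : ℕ} (j1 : 1 ≤ j)
    (j2 : j ≤ (latG hD).gap v + 3) :
    nb D (lat D v.1 v.2) j = lat D ((latG hD).nb v j).1 ((latG hD).nb v j).2 := by
  have h6 : ∀ w, 6 ≤ D w := fun w => (hD w).trans' (by omega)
  have h1 := latG_dg hD v
  have h2 := latG_tau hD v
  have h3 := (latG hD).gap_eq v
  obtain ⟨n, y⟩ := v
  have h0 := lat_ne (D := D) n y
  have h4 := tau_le (D := D) (lat D n y)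
  unfold Grid.dg at h1
  rw [latG_A] at h3
  rcases Grid.nb_cases (G := latG hD) (n, y) j with
    ⟨h, e⟩ | ⟨h, e⟩ | ⟨h, h', e⟩ | ⟨h, e⟩ | ⟨h, e⟩ <;> rw [e] <;> simp only at h1 h2 h3 ⊢
  · omega
  · rw [h, nb_one h0, pred_lat hD]
  · rcases h.lt_or_eq with h | rfl
    · rw [nb_child h0 h (by omega)]
      rw [latG_A, lat_succ hD (n := n) (x := y) (by omega) (by omega)]
      congr 1; omega
    · have h5 := lA_step hD n (y - 1)
      have h6 := lA_lt hD n (y - 1)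
      rw [nb_two h0, pred_lat hD]
      rw [latG_A, lat_succ hD (n := n) (x := y - 1) (by omega) (by omega), last]
      congr 1; omega
  · rw [nb_succ h6 h0 (by omega), succ_lat hD]
  · omega

theorem exists_cen {V : Type} (T : PlaneTri V) (h7 : ∀ v, 7 ≤ T.deg v) (o : V) :
    ∃ (G : Grid) (E : Emb G T), E.O = o ∧ (∀ w, w ≠ o → ∃ a, E.π a = w) ∧
      ∀ a w, T.G.Adj (E.π a) w → w ≠ o → ∃ b, G.Adj a b ∧ E.π b = w := by
  have h6 : ∀ v, 6 ≤ T.deg v := fun v => (h7 v).trans' (by omega)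
  obtain ⟨r, ν, M⟩ := PlaneTri.exists_geoMod' h6 o
  have hD : ∀ w, 7 ≤ T.nD o r w := fun w => h7 _
  have h0 : ∀ v : Pt, 1 ≤ v.1 → (T.pj o r (lat (T.nD o r) v.1 v.2)).2 =
      (T.pj o r (lat (T.nD o r) ((latG hD).nb v 0).1 ((latG hD).nb v 0).2)).1 := by
    rintro ⟨_ | n, y⟩ hv
    · simp at hv
    · rfl
  have lift : ∀ (a : Pt) w, T.G.Adj (T.pj o r (lat (T.nD o r) a.1 a.2)).1 w → w ≠ o →
      ∃ b, (latG hD).Adj a b ∧ (T.pj o r (lat (T.nD o r) b.1 b.2)).1 = w := by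
    intro a w h hw
    obtain ⟨j, h1, h2, -⟩ := M.nbr h
    rw [M.nu_pj _ (lat_valid hD _ _)] at h1 h2
    rw [← latG_dg hD] at h1
    rcases Nat.eq_zero_or_pos a.1 with e | e
    · have h3 : j ≠ 0 := fun e' => M.nu_ne hw (by rw [h2, e', nb_zero (lat_ne _ _), e]; rfl)
      have h4 : (latG hD).tau a = 0 := if_neg (by rw [e]; exact id)
      have h5 : j ≤ (latG hD).gap a + 3 := by unfold Grid.dg at h1; omega
      exact ⟨_, Grid.adj_nb' (by omega) h5, by rw [← nb_lat' hD (by omega) h5, ← h2, M.pj_nu]⟩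
    · exact ⟨_, Grid.adj_nb e h1, by rw [← nb_lat hD e h1, ← h2, M.pj_nu]⟩
  refine ⟨latG hD, ⟨o, fun v => (T.pj o r (lat (T.nD o r) v.1 v.2)).1, h6,
    fun v _ => (latG_dg hD v).symm, fun v hv => h0 v hv ▸ PlaneTri.adj_pj M.adj _,
    fun v hv j hj => ?_, fun v => by rw [M.d_pj (lat_valid hD _ _), lat_len],
    fun u v hu hv e => ?_⟩, rfl, fun w hw => ?_, lift⟩
  · rw [← h0 v hv, ← nb_lat hD hv hj,
      PlaneTri.pj_nb h6 M.adj (lat_valid hD _ _) (latG_dg hD v ▸ hj)]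
  · have e1 := congrArg ν e
    rw [M.nu_pj _ (lat_valid hD _ _), M.nu_pj _ (lat_valid hD _ _)] at e1
    have e2 := congrArg List.length e1
    rw [lat_len, lat_len] at e2
    obtain ⟨n, x⟩ := u
    obtain ⟨m, y⟩ := v
    obtain rfl : n = m := by simpa using e2
    rw [lat_inj hD n x y hu hv e1]
  · obtain ⟨n, hn⟩ : ∃ n, T.d o w = n + 1 :=
      ⟨T.d o w - 1, by have := mt (PlaneTri.d_eq_zero (T := T)).1 hw.symm; omega⟩
    induction n generalizing w with
    | zero =>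
      obtain ⟨j, h1, h2, -⟩ := M.nbr_base (PlaneTri.adj_of_d hn)
      refine ⟨(0, j), ?_⟩
      rw [← M.pj_nu w, h2]
      simp only [lat]
      rw [Int.emod_eq_of_lt (by omega) (by exact_mod_cast h1), Int.toNat_natCast]
    | succ n ih =>
      obtain ⟨p, h1, h2⟩ := PlaneTri.geo_parent hn
      obtain ⟨a, rfl⟩ := ih p (by rintro rfl; simp at h2) h2
      exact (lift a w h1.symm hw).imp fun _ h => h.2

/-- bound for the paths of any grid which end on the lowest level -/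
def HH (x h : ℝ≥0∞) : Prop := ∀ (G : Grid) (u : Pt), ∑' l : List Pt,
  ind ((u :: l).IsChain G.Adj ∧ (u :: l).Nodup ∧ (l.getLastD u).1 = 0) * x ^ (l.length + 1) ≤ h

theorem green_tri {V : Type} (T : PlaneTri V) (h7 : ∀ v, 7 ≤ T.deg v) {x h : ℝ≥0∞} (H : HH x h)
    (u v : V) : ∑' l : List V, ind ((u :: l ++ [v]).IsChain T.G.Adj ∧ (u :: l ++ [v]).Nodup) *
      x ^ (l.length + 1) ≤ h := by
  obtain ⟨G, E, rfl, h1, h2⟩ := exists_cen T h7 v
  by_cases e : u = E.O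
  · rw [ENNReal.tsum_eq_zero.2 fun l => by rw [ind_of_not (by simp [e]), zero_mul]]
    exact zero_le
  obtain ⟨a, rfl⟩ := h1 u e
  have key : ∀ (l : List V) (a : Pt), (E.π a :: l ++ [E.O]).IsChain T.G.Adj → E.O ∉ l →
      ∃ m : List Pt, m.map E.π = l ∧ (a :: m).IsChain G.Adj ∧ (m.getLastD a).1 = 0 := by
    intro l
    induction l with
    | nil =>
      intro a h _
      have := E.lev a
      rw [PlaneTri.d_adj (List.isChain_pair.1 h).symm] at this
      exact ⟨[], rfl, by simp, by simpa using this⟩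
    | cons w l ih =>
      intro a h h'
      obtain ⟨b, g1, rfl⟩ := h2 a w (List.isChain_cons_cons.1 h).1 fun e => h' (by simp [e])
      obtain ⟨m, rfl, g2, g3⟩ := ih b (List.isChain_cons_cons.1 h).2 fun e => h' (by simp [e])
      exact ⟨b :: m, rfl, List.isChain_cons_cons.2 ⟨g1, g2⟩, by rwa [List.getLastD_cons]⟩
  refine le_trans (tsum_le_of_dec _ _ (List.map E.π) fun l hl => ?_) (H G a)
  obtain ⟨g1, g2⟩ := of_ind_mul_ne hl
  obtain ⟨m, rfl, g3, g4⟩ := key l a g1 fun e =>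
    (List.nodup_append.1 g2).2.2 _ (List.mem_cons_of_mem _ e) _ (by simp) rfl
  refine ⟨m, rfl, ind_mul_le fun _ => ?_⟩
  rw [ind_of ⟨g3, List.Nodup.of_map E.π g2.of_append_left, g4⟩, one_mul, List.length_map]

namespace Grid
variable {G : Grid} {W : Pt → Pt → Prop} {c : Pt → ℕ} {k : ℕ} {o : Pt} {N : ℕ} {x h : ℝ≥0∞}

variable (G o N x) in
/-- real paths from `u` to `v`; the list contains the inner vertices, newest first -/
noncomputable def SGn (u v : Pt) : ℝ≥0∞ := ∑' l : List Pt,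
  ind ((v :: l ++ [u]).IsChain G.Adj ∧ (v :: l ++ [u]).Nodup ∧ ∀ w ∈ v :: l ++ [u], G.Hm o N w) *
    x ^ (l.length + 1)

theorem s_pi_inj (X : G.SCx W c k o) {V : Type} {T : PlaneTri V} (E : Emb G T) (a b : Pt)
    (ha : G.Cn 0 o a) (hb : G.Cn 0 o b) : E.π a = E.π b → a = b :=
  E.inj a b (cone_one (cone_trans X.cone ha)) (cone_one (cone_trans X.cone hb))

theorem gn_le (X : G.SCx W c k o) {V : Type} {T : PlaneTri V} (E : Emb G T)
    (h7 : ∀ v, 7 ≤ T.deg v) (H : HH x h) (u v : Pt) : G.SGn o N x u v ≤ h := by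
  refine le_trans (tsum_le_of_enc _ _ (List.map E.π) (fun l l' h h' e => ?_) fun l hl => ?_)
    (green_tri T h7 H (E.π v) (E.π u))
  · exact s_map_inj (s_pi_inj X E) (fun a ha => ((of_ind_mul_ne h).2.2 a (by simp [ha])).1)
      (fun a ha => ((of_ind_mul_ne h').2.2 a (by simp [ha])).1) e
  · obtain ⟨g1, g2, g3⟩ := of_ind_mul_ne hl
    have e : E.π v :: l.map E.π ++ [E.π u] = (v :: l ++ [u]).map E.π := by simp
    refine ind_mul_le fun _ => ?_
    rw [e, ind_of (And.intro ((List.isChain_map E.π).2 (g1.imp_of_mem_imp fun a b ha _ =>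
      E.adj (by have := s_lev X (g3 a ha); omega)))
      (g2.map_on fun a ha b hb => s_pi_inj X E a b (g3 a ha).1 (g3 b hb).1)), one_mul,
      List.length_map]

end Grid
end Pool.Agent.P.MP_e4ac67_pr.Gr
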