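import Pool.Agent.P.MP_e4ac67_pr.V.Cls
import Pool.Agent.P.MP_e4ac67_pr.S.Cen

/-! The classes of arcs for self-avoiding walks. -/

open scoped ENNReal

namespace Pool.Agent.P.MP_e4ac67_pr.Gr

/-- weight `x` per step, no closed keys, price `iv` per step of the chain -/
def sawNm (x iv : ℝ≥0∞) : Nm := ⟨false, x, 1, iv, iv, 0⟩

namespace Grid
variable (G : Grid) (k : ℕ) (P : Nm)

/-- as `fWW`, but the two ends may coincide -/
noncomputable def fWS (z b : Pt) (I : List Pt) : ℝ≥0∞ := ∑' e : Pt,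
  ind (G.Tb z e ∧ G.Arc z b I e ∧ ¬(G.Rt z 4 (I.headD z) ↔ G.Rt z 4 (I.getLastD z))) *
  G.wt P z b I e (· ≠ I.length) (fun i => 2 ≤ i ∧ i < I.length) (fun _ => False)

/-- marked arcs; the head of the stop dart is an inner vertex on the side of the left end
(`s = true`) or of the right end (`s = false`) -/
noncomputable def fH (s : Bool) (z bL : Pt) (I : List Pt) (bR : Pt) : ℝ≥0∞ := ∑' t : ℕ,
  ind (G.MA P z bL I bR t (cond s t (t + 1)) ∧ cond s (1 ≤ t) (t < I.length)) *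
    ((ind (G.Pk k z bL I bR t) + ind (G.Al k z bL I bR t)) * G.wF P z bL I bR t (cond s t (t + 1)))

/-- marked arcs listed from the end `b` on the stem; the other end is `z` or in the tube -/
noncomputable def fFS (z b : Pt) (I : List Pt) : ℝ≥0∞ := ∑' e : Pt,
  ind (Wz G.Tb z e ∧ e ≠ b) * (G.fH k P true z b I e + G.fH k P false z e I.reverse b)

noncomputable def freeS (h : ℝ≥0∞) (z : Pt) : ℝ≥0∞ :=
  G.sT P z none (G.fS P z) + G.sT P z none (G.fZW P z) + h * G.sT P z none (G.fWS P z)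

noncomputable def chgS (h : ℝ≥0∞) (z : Pt) (s : Bool) : ℝ≥0∞ :=
  h * (G.sT P z s (G.fL P z) + G.sT P z s (G.fX P false z) + G.sT P z s (G.fFS k P z)) +
    G.sT P z s (G.fSz k P z) + G.sT P z s (G.fWS P z)

open Classical in
/-- as `sG`, but the paths stay in the cone of `o` -/
noncomputable def sGS (o : Pt) (s : Bool) : ℝ≥0∞ := ∑' x : ℕ × List Pt,
  let e : Pt := (o.1 + (x.1 + 1), if s then G.rr o (x.1 + 1) else G.lr o (x.1 + 1))
  ind ((o :: x.2 ++ [e]).IsChain G.Adj ∧ (o :: x.2 ++ [e]).Nodup ∧ ∀ v ∈ x.2, G.Cn 0 o v) *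
    G.wt P o o x.2 e (fun _ => True) (fun _ => True) (fun _ => False)

end Grid

/-- What the tables must give for walks (with `max x⁻¹ h ≤ iv` and `θ < 1`). -/
def TabS (k : ℕ) (x h iv θ : ℝ≥0∞) : Prop :=
  HH x h ∧ ∀ G : Grid, (∀ z : Pt, 3 ≤ z.1 → k < G.dg z → ∃ K, G.freeS (sawNm x iv) h z + K ≤ 1 ∧
      ∀ s, G.chgS k (sawNm x iv) h z s ≤ K * x) ∧
    ∀ o : Pt, 3 ≤ o.1 → G.tau o = 0 →
      x * (2 + 2 * (G.sGS (sawNm x iv) o false + G.sGS (sawNm x iv) o true)) ≤ θ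

end Pool.Agent.P.MP_e4ac67_pr.Gr
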