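import Pool.Agent.P.MP_e4ac67_pr.S.Cls

/-! The chain from a tube vertex to its entrance vertex inside the real domain. -/

open scoped ENNReal

namespace Pool.Agent.P.MP_e4ac67_pr.Gr
namespace Grid
variable {G : Grid} {z o b f : Pt} {N : ℕ}

theorem s_rp (n : ℕ) (y : ℤ) : G.A n (G.rp n y - 1) ≤ y ∧ y < G.A n (G.rp n y) := by
  have h := G.lp_spec n y
  have h1 := G.A_pred n (G.lp n y + 1)
  rw [add_sub_cancel_right] at h1
  unfold rp
  split_ifs with e
  · rw [add_sub_cancel_right]; omega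
  · omega

theorem s_ar {n i : ℕ} (h : z.1 = n + (i + 1)) : G.ar z (i + 1) = G.rp n (G.ar z i) := by
  rw [ar, show z.1 - (i + 1) = n by omega]

theorem s_an_ar (i : ℕ) : G.an z i ≤ G.ar z i ∧ G.ar z i ≤ G.an z i + 1 := by
  induction i with
  | zero => simp [an, ar]
  | succ i ih =>
    rw [an, ar]
    generalize z.1 - (i + 1) = n
    have h1 := G.lp_spec n (G.an z i)
    have h2 := s_rp (G := G) n (G.ar z i)
    have h3 := G.gap2 n (G.lp n (G.an z i) + 1)
    rw [add_sub_cancel_right] at h3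
    have h4 := (G.A_lt n).lt_iff_lt.1 (show G.A n (G.lp n (G.an z i) - 1) <
      G.A n (G.rp n (G.ar z i)) by omega)
    have h5 := (G.A_lt n).lt_iff_lt.1 (show G.A n (G.rp n (G.ar z i) - 1) <
      G.A n (G.lp n (G.an z i) + 1) by omega)
    omega

theorem s_cone (h : G.Cn 0 o z) (i : ℕ) :
    ∀ j, z.1 = o.1 + j + i → G.lr o j ≤ G.ar z i ∧ G.an z i ≤ G.rr o j := by
  induction i with
  | zero =>
    intro j e
    have := h.2
    rw [show z.1 - o.1 = j by omega] at this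
    simpa [an, ar] using this
  | succ i ih =>
    intro j e
    have h0 := ih (j + 1) (by omega)
    have e' : z.1 = o.1 + j + (i + 1) := e
    rw [s_ar e', an_succ e']
    rw [lr, rr] at h0
    have h1 := G.lp_spec (o.1 + j) (G.an z i)
    have h2 := s_rp (G := G) (o.1 + j) (G.ar z i)
    have h4 := (G.A_lt _).lt_iff_lt.1 (h0.1.trans_lt h2.2)
    have h5 := (G.A_lt _).lt_iff_lt.1 (h1.1.trans_le h0.2)
    omega

theorem s_off {m j : ℕ} {y : ℤ} (e : z.1 = m + j) (h : ¬Wz G.Tb z (m, y)) :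
    (G.Rt z 4 (m, y) → G.ar z j < y) ∧ (¬G.Rt z 4 (m, y) → y < G.an z j) := by
  have h1 : ¬(G.an z j ≤ y ∧ y ≤ G.ar z j) := fun g => h (by
    obtain _ | j := j
    · exact Or.inl (Prod.ext e.symm (by simp only [an, ar] at g ⊢; omega))
    · exact Or.inr (Or.inl ⟨j + 1, by omega, e.symm, Or.inl g⟩))
  have := s_an_ar (G := G) (z := z) j
  rw [rt_dn e]
  omega

theorem s_side {n i : ℕ} {x : ℤ} (e : z.1 = n + (i + 1)) (h : G.Adj (n, x) f)
    (hf : ¬Wz G.Tb z f) :
    (G.Rt z 4 f → G.ar z (i + 1) ≤ x) ∧ (¬G.Rt z 4 f → x ≤ G.an z (i + 1)) := by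
  obtain ⟨m, y⟩ := f
  rw [adj_iff] at h
  simp only at h
  rcases h with ⟨rfl, h⟩ | ⟨rfl, h, h'⟩ | ⟨rfl, h, h'⟩
  · have := s_off e hf
    exact ⟨fun g => by have := this.1 g; omega, fun g => by have := this.2 g; omega⟩
  · have h0 := s_off (j := i) (by omega) hf
    have h1 := G.lp_spec n (G.an z i)
    have h2 := s_rp (G := G) n (G.ar z i)
    rw [s_ar e, an_succ e]
    exact ⟨fun g => by
      have := (G.A_lt n).lt_iff_lt.1 (h2.1.trans_lt ((h0.1 g).trans_le h')); omega, fun g => by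
      have := (G.A_lt n).lt_iff_lt.1 (h.trans_lt ((h0.2 g).trans_le h1.2)); omega⟩
  · have e' : z.1 = m + (i + 1 + 1) := by omega
    have h0 := s_off e' hf
    have h1 := G.lp_spec m (G.an z (i + 1))
    have h2 := s_rp (G := G) m (G.ar z (i + 1))
    rw [s_ar e', an_succ e'] at h0
    exact ⟨fun g => by
      have : G.A m (G.rp m (G.ar z (i + 1))) ≤ G.A m (y - 1) := G.A_le (by have := h0.1 g; omega)
      omega, fun g => by
      have : G.A m y ≤ G.A m (G.lp m (G.an z (i + 1)) - 1) := G.A_le (by have := h0.2 g; omega)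
      omega⟩

variable {Z : Pt → ℝ≥0∞} {iv : ℝ≥0∞}

theorem s_down (hz : G.Hm o N z)
    (hs : ∀ u v, G.Hm o N u → G.Hm o N v → G.Adj u v → v ≠ z → Z u ≤ iv * Z v) {a : ℕ → ℤ}
    (ha : ∀ n i, z.1 = n + (i + 1) → G.Ch n (a (i + 1)) (a i)) (i : ℕ) :
    ∀ n, z.1 = n + (i + 1) → G.Hm o N (n, a (i + 1)) →
      Z (n, a (i + 1)) ≤ iv ^ i * Z (z.1 - 1, a 1) := by
  induction i with
  | zero => intro n e _; rw [pow_zero, one_mul, show z.1 - 1 = n by omega]
  | succ i ih =>
    intro n e h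
    have h1 : G.Hm o N (n + 1, a (i + 1)) :=
      ⟨cone_child h.1 rfl (ha n _ e), by have := hz.2; simp only; omega⟩
    refine (hs _ _ h h1 (Or.inr (Or.inl ⟨rfl, ha n _ e⟩)) fun e' => ?_).trans ?_
    · rw [← e'] at e; simp only at e; omega
    · rw [pow_succ', mul_assoc]
      exact mul_le_mul_right (ih (n + 1) (by omega) h1) _

theorem s_yv (hz : 1 ≤ z.1) (s : Bool) : G.Adj z (G.yv z s) := by
  have := G.tau_le z
  cases s <;> simp only [yv] <;> split_ifs <;> exact adj_nb hz (by unfold dg; omega)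

theorem s_yv_ne (hz : 1 ≤ z.1) : G.yv z false ≠ G.yv z true := by
  have := G.tau_le z
  simp only [yv]
  split_ifs <;> intro e <;> have := nb_inj hz (by unfold dg; omega) (by unfold dg; omega) e <;>
    omega

theorem s_chain (hz : G.Hm o N z) (h1 : 1 ≤ z.1)
    (hs : ∀ u v, G.Hm o N u → G.Hm o N v → G.Adj u v → v ≠ z → Z u ≤ iv * Z v)
    (hb : G.Tb z b) (hb' : G.Hm o N b) (h : G.Adj b f) (hf : ¬Wz G.Tb z f) :
    ∃ ρ, ρ + b.1 ≤ z.1 ∧ (∀ v, G.ch v v z b = v ^ ρ) ∧ Z b ≤ iv ^ ρ * Z (G.yv z (G.tg z b f)) := by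
  classical
  rcases hb with ⟨i, i1, e, hb⟩ | ⟨e, rfl⟩
  swap
  · refine ⟨0, ?_, fun v => ?_, le_of_eq ?_⟩
    · unfold lt1; split_ifs <;> simp
    · rw [ch, if_pos (by unfold lt1; split_ifs <;> rfl), pow_zero]
    · rw [pow_zero, one_mul, tg, if_neg (by omega)]
      split_ifs with g
      · simp [yv, lt1, e, g, nb_one]
      · simp [yv, lt1, e, g, nb_rt]
  obtain ⟨n, x⟩ := b
  obtain ⟨i, rfl⟩ : ∃ j, i = j + 1 := ⟨i - 1, by omega⟩
  simp only at e hb
  have h2 := s_side e.symm h hf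
  have h3 := s_an_ar (G := G) (z := z) (i + 1)
  obtain ⟨j, y, e1⟩ := cone_ex hb'.1
  obtain ⟨rfl, rfl⟩ := Prod.mk.inj e1
  have h4 := s_cone hz.1 (i + 1) j e.symm
  have h5 := cone_iff.1 hb'.1
  have d1 := s_down hz hs (a := G.an z) (fun n i e => by
    have := G.lp_spec n (G.an z i); rw [an_succ e]; exact ⟨this.1.le, this.2⟩) i _ e.symm
  have d2 := s_down hz hs (a := G.ar z) (fun n i e => by
    have := s_rp (G := G) n (G.ar z i); rw [s_ar e]; exact ⟨this.1, this.2.le⟩) i _ e.symm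
  have ht : G.yv z (G.tg z (o.1 + j, x) f) =
      (z.1 - 1, if G.Rt z 4 f then G.ar z 1 else G.an z 1) := by
    have t1 := G.tau_succ (z.1 - 1) z.2
    rw [show z.1 - 1 + 1 = z.1 by omega] at t1
    have t2 : (o.1 + j, x) ≠ G.lt1 z := fun g => by
      have := congrArg Prod.fst g
      unfold lt1 at this
      split_ifs at this <;> simp only at this <;> omega
    rcases t1 with ⟨t1, t3⟩ | ⟨t1, t3⟩
    · by_cases g : G.Rt z 4 f
      · simp only [tg, yv, t1, g, if_true, decide_true, G.nb_up z le_rfl, ar, rp, zero_add, ← t3]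
      · simp [tg, yv, t1, g, nb_zero, an]
    · by_cases g : G.sL z 0 = 1 <;> simp [tg, yv, t1, g, t2, nb_zero, an, ar, rp, t3.ne]
  have lat : ∀ y, y = x + 1 ∨ y = x - 1 → G.lr o j ≤ y → y ≤ G.rr o j →
      G.Hm o N (o.1 + j, y) ∧ Z (o.1 + j, x) ≤ iv * Z (o.1 + j, y) := fun y g g1 g2 =>
    have g3 : G.Hm o N (o.1 + j, y) := ⟨cone_iff.2 (by omega), hb'.2⟩
    ⟨g3, hs _ _ hb' g3 (G.adj_iff.2 (Or.inl ⟨rfl, g⟩)) fun e' => by
      rw [← e'] at e; simp only at e; omega⟩
  have e2 : z.1 - (o.1 + j) = i + 1 := by omega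
  rw [ht]
  by_cases g : G.an z (i + 1) ≤ x ∧ x ≤ G.ar z (i + 1)
  · refine ⟨i, by simp only; omega, fun v => ?_, ?_⟩
    · rw [ch, if_neg (by simp only; omega), e2, if_pos g, one_mul]; rfl
    · split_ifs with g'
      · obtain rfl : x = G.ar z (i + 1) := by have := h2.1 g'; omega
        exact d2 hb'
      · obtain rfl : x = G.an z (i + 1) := by have := h2.2 g'; omega
        exact d1 hb'
  · refine ⟨i + 1, by simp only; omega, fun v => ?_, ?_⟩
    · rw [ch, if_neg (by simp only; omega), e2, if_neg g, pow_succ']; rfl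
    · rw [pow_succ', mul_assoc]
      split_ifs with g'
      · have := h2.1 g'
        have := lat (G.ar z (i + 1)) (by omega) h4.1 (by omega)
        exact this.2.trans (mul_le_mul_right (d2 this.1) _)
      · have := h2.2 g'
        have := lat (G.an z (i + 1)) (by omega) (by omega) h4.2
        exact this.2.trans (mul_le_mul_right (d1 this.1) _)

end Grid
end Pool.Agent.P.MP_e4ac67_pr.Gr
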