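import Pool.Agent.P.MP_e4ac67_pr.S.Chain

/-! Sums over walks to the tube, and the tools to decompose a stopped walk. -/

open scoped ENNReal

namespace Pool.Agent.P.MP_e4ac67_pr.Gr
namespace Grid
variable {G : Grid} {k : ℕ} {o : Pt} {N : ℕ} {z b e u v f y : Pt} {γ I w : List Pt}
  {x x₀ h iv r : ℝ≥0∞}

theorem wt_all {eo ee el : ℕ → Prop} (H : ∀ i, eo i) :
    G.wt (sawNm x iv) z b I e eo ee el = x ^ (I.length + 1) := by simp [wt, sawNm, H]

theorem wt_one {eo ee el : ℕ → Prop} {t : ℕ} (ht : t ≤ I.length) (H : ∀ i, eo i ↔ i ≠ t) :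
    G.wt (sawNm x iv) z b I e eo ee el = x ^ I.length := by
  simp only [wt, sawNm, H, ite_self, mul_one]
  rw [Finset.prod_ite, Finset.prod_const_one, mul_one, Finset.prod_const, Finset.filter_ne',
    Finset.card_erase_of_mem (by simp; omega)]
  simp

theorem s_lev_chain (h : (b :: I).IsChain G.Adj) (hv : v ∈ I) : v.1 ≤ b.1 + I.length := by
  induction I generalizing b with
  | nil => simp at hv
  | cons a I ih =>
    have := (List.isChain_cons_cons.1 h).1.lev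
    rcases List.mem_cons.1 hv with rfl | hv
    · simp only [List.length_cons]; omega
    · have := ih h.tail hv
      simp only [List.length_cons]; omega

theorem s_same (hW : G.TubeOK G.Tb c4) (h3 : 3 ≤ G.gap z) (h : I.IsChain G.Adj)
    (h1 : ∀ v ∈ I, ¬Wz G.Tb z v) (h2 : ∀ v ∈ I, v.1 ≤ z.1) :
    ∀ u ∈ I, ∀ v ∈ I, G.Rt z 4 u ↔ G.Rt z 4 v := by
  have key : ∀ u ∈ I, ∀ v ∈ I, G.Adj u v → G.Rt z 4 v → G.Rt z 4 u := fun u hu v hv a g => by
    by_contra e
    obtain ⟨i, rfl, -⟩ := hW.cross (g := 4) (by omega) (by omega) a (h1 u hu) (h1 v hv) e g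
    have := h2 _ hu
    simp only [mu] at this
    omega
  clear h1 h2
  induction I with
  | nil => simp
  | cons a I ih =>
    have ih := ih h.tail fun u hu v hv => key u (by simp [hu]) v (by simp [hv])
    obtain _ | ⟨a', I⟩ := I
    · simp
    have h4 := (List.isChain_cons_cons.1 h).1
    have h5 : G.Rt z 4 a ↔ G.Rt z 4 a' :=
      ⟨key a' (by simp) a (by simp) h4.symm, key a (by simp) a' (by simp) h4⟩
    have h6 : ∀ u ∈ a :: a' :: I, G.Rt z 4 u ↔ G.Rt z 4 a' := fun u hu =>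
      (List.mem_cons.1 hu).elim (fun e => e ▸ h5) fun e => ih u e a' (by simp)
    exact fun u hu v hv => (h6 u hu).trans (h6 v hv).symm

theorem Arc.inner (A : G.Arc z b I e) : I.IsChain G.Adj ∧ I.headD z ∈ I ∧ I.getLastD z ∈ I ∧
    G.Adj b (I.headD z) ∧ G.Adj (I.getLastD z) e ∧ (b :: I).IsChain G.Adj := by
  obtain ⟨h1, -, -, h2, -⟩ := A
  have h3 : (b :: I).IsChain G.Adj := ch_pfx h1 (List.prefix_append _ _)
  obtain ⟨J, l, rfl⟩ := (List.eq_nil_or_concat' I).resolve_left h2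
  refine ⟨h3.tail, by cases J <;> simp, by simp, ?_, ?_, h3⟩
  · cases J <;> exact (List.isChain_cons_cons.1 h3).1
  · simpa using h1.suffix (show [l, e] <:+ _ from ⟨b :: J, by simp⟩)

/-- an arc which changes sides goes below `z` -/
theorem Arc.deep (A : G.Arc z b I e) (hW : G.TubeOK G.Tb c4) (h3 : 3 ≤ G.gap z)
    (h : ¬(G.Rt z 4 (I.headD z) ↔ G.Rt z 4 (I.getLastD z))) : ∃ v ∈ I, z.1 < v.1 := by
  by_contra g
  push Not at g
  exact h (s_same hW h3 A.inner.1 A.2.2.2.2 g _ A.inner.2.1 _ A.inner.2.2.1)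

theorem Arc.deepZ (A : G.Arc z b I z) (hW : G.TubeOK G.Tb c4) (h7 : 7 ≤ k) (hk : k < G.dg z)
    (hz : 1 ≤ z.1) (h : G.VZ k z (I.headD z) (I.getLastD z)) : ∃ v ∈ I, z.1 < v.1 := by
  by_contra g
  push Not at g
  obtain ⟨h1, h2, h3, -, h4, -⟩ := A.inner
  have h5 := gap_ge h7 hk
  have h6 := s_same hW h5 h1 A.2.2.2.2 g _ h2 _ h3
  have h8 := hW.left (g := 4) h5 hz h4.symm (A.2.2.2.2 _ h3) (Or.inl rfl)
  have h9 := g _ h3
  have := G.tau_le z
  rcases h with h | h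
  · exact h.1 (h6.2 (h8.2.2.2 h.2.le))
  · have := h8.2.2.1 (h6.1 h.1)
    rw [← (ps_spec hz h4.symm).2, G.nb_ch z (by omega) (by unfold dg at h; omega)] at h9
    simp at h9

theorem s_scale (hr : r ≤ 1) {m n : ℕ} (h : n ≤ m) : (r * x₀) ^ m ≤ r ^ n * x₀ ^ m := by
  rw [mul_pow]
  exact mul_le_mul_left (pow_le_pow_of_le_one zero_le hr h) _

theorem Arc.scale (A : G.Arc z b I e) (hr : r ≤ 1) (h : ∃ v ∈ I, z.1 < v.1) :
    (r * x₀) ^ I.length ≤ r ^ (z.1 - b.1 + 1) * x₀ ^ I.length := by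
  obtain ⟨v, h1, h2⟩ := h
  have := s_lev_chain A.inner.2.2.2.2.2 h1
  have := List.length_pos_iff.2 A.2.2.2.1
  exact s_scale hr (by omega)

theorem s_cv (h3 : 3 ≤ G.gap z) : (G.cv z).1 = z.1 + 1 ∧ G.Adj z (G.cv z) :=
  ⟨by rw [cv, G.nb_ch z (by omega) (by omega)], adj_nb' (by omega) (by omega)⟩

theorem Arc.scaleC (A : G.Arc z b I (G.cv z)) (h3 : 3 ≤ G.gap z) (hr : r ≤ 1) :
    (r * x₀) ^ (I.length + 1) ≤ r ^ (z.1 - b.1 + 1) * x₀ ^ (I.length + 1) := by
  have := s_lev_chain (I := I ++ [G.cv z]) (v := G.cv z) A.1 (by simp)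
  rw [(s_cv h3).1, List.length_append] at this
  exact s_scale hr (by simp at this; omega)

theorem SWk.cut (X : G.SCx G.Tb c4 k o) (hz : G.Hm o N z) (h : G.SWk o N γ) :
    ∃ w, γ = itr G.Tb z γ ++ bas G.Tb z γ :: w ∧ Wz G.Tb z (bas G.Tb z γ) ∧
      G.Hm o N (bas G.Tb z γ) ∧ G.SWk o N (bas G.Tb z γ :: w) := by
  have ho : Wz G.Tb z o := X.tube.wz (cone_anc hz.1)
  obtain ⟨w, h1, h2⟩ := itr_bas (W := G.Tb) (z := z) ⟨o, h.root.subset (by simp), ho⟩
  have h3 : G.Hm o N (bas G.Tb z γ) := by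
    obtain ⟨B, rfl⟩ := h.root
    obtain ⟨B1, B2, e⟩ := List.append_of_mem (itr_split (l := B) (w := [G.nb o 0]) ho).2.1
    refine SWk.hm (s := B1) (w := B2 ++ [G.nb o 0]) ?_ (by simp)
    rwa [← List.cons_append, ← List.append_assoc, ← e, List.append_assoc]
  exact ⟨w, h1, h2, h3, SWk.at X (h1 ▸ h) h3⟩

theorem SWk.pos (h : G.SWk o N (v :: w)) : 1 ≤ w.length := by have := h.two; simpa using this

/-- the piece of a walk between two real vertices -/
theorem SWk.mid {s m : List Pt} (h : G.SWk o N (s ++ v :: m ++ u :: w)) (hu : G.Hm o N u) :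
    (v :: m ++ [u]).IsChain G.Adj ∧ (v :: m ++ [u]).Nodup ∧ ∀ a ∈ v :: m ++ [u], G.Hm o N a := by
  have e : v :: m ++ [u] <:+: s ++ v :: m ++ u :: w := ⟨s, w, by simp⟩
  refine ⟨ch_ifx h.ch e, h.nd.sublist e.sublist, fun a ha => ?_⟩
  rcases List.mem_append.1 ha with ha | ha
  · obtain ⟨l1, l2, e⟩ := List.append_of_mem ha
    refine SWk.hm (s := s ++ l1) (w := l2 ++ u :: w) ?_ (by simp)
    rw [List.append_assoc s, e] at h
    simpa using h
  · rwa [List.mem_singleton.1 ha]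

variable (G o N x) in
/-- walks to `b` which avoid `z` -/
noncomputable def SZ (z b : Pt) : ℝ≥0∞ :=
  ∑' w, ind (G.SWk o N (b :: w) ∧ z ∉ b :: w) * x ^ (w.length - 1)

variable (G o N x) in
/-- walks to `z` -/
noncomputable def SY (z : Pt) : ℝ≥0∞ := ∑' w, ind (G.SWk o N (z :: w)) * x ^ (w.length - 1)

theorem SWk.cons (h : G.SWk o N (u :: w)) (hv : G.Hm o N v) (a : G.Adj v u) (h' : v ∉ u :: w) :
    G.SWk o N (v :: u :: w) :=
  ⟨h.root.trans (List.suffix_cons _ _), List.forall_mem_cons.2 ⟨Or.inl hv, h.dom⟩,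
    List.isChain_cons_cons.2 ⟨a, h.ch⟩, List.nodup_cons.2 ⟨h', h.nd⟩⟩

theorem sz_step (X : G.SCx G.Tb c4 k o) (h0 : x ≠ 0) (h1 : x ≠ ⊤) (hG : ∀ u v, G.SGn o N x u v ≤ h)
    (hv : G.Hm o N v) (a : G.Adj u v) (hz : v ≠ z) :
    G.SZ o N x z u ≤ max x⁻¹ h * G.SZ o N x z v := by
  calc _ ≤ ∑' w, (ind ((G.SWk o N (u :: w) ∧ z ∉ u :: w) ∧ v ∉ w) * x ^ (w.length - 1) +
        ind ((G.SWk o N (u :: w) ∧ z ∉ u :: w) ∧ v ∈ w) * x ^ (w.length - 1)) :=
        ENNReal.tsum_le_tsum fun w => ind_mul_le fun g => by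
          by_cases e : v ∈ w
          · rw [ind_of (And.intro g e), one_mul]; exact le_add_self
          · rw [ind_of (And.intro g e), one_mul]; exact le_self_add
    _ ≤ x⁻¹ * ∑' w, ind ((G.SWk o N (v :: w) ∧ z ∉ v :: w) ∧ u ∈ w) * x ^ (w.length - 1) +
        h * ∑' w, ind ((G.SWk o N (v :: w) ∧ z ∉ v :: w) ∧ u ∉ w) * x ^ (w.length - 1) := by
        rw [ENNReal.tsum_add]
        refine add_le_add ?_ (le_trans ?_ (mul_le_mul_left (hG v u) _))
        · rw [← ENNReal.tsum_mul_left]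
          refine tsum_le_of_enc _ _ (u :: ·) (fun _ _ _ _ e => List.cons_injective e) fun w g => ?_
          obtain ⟨⟨g1, g2⟩, g3⟩ := of_ind_mul_ne g
          have := g1.pos
          refine ind_mul_le fun _ => le_of_eq ?_
          rw [ind_of (And.intro (And.intro (g1.cons hv a.symm (by simp [g3, a.ne.symm]))
            (by simpa [hz.symm] using g2)) List.mem_cons_self), one_mul, List.length_cons, Nat.add_sub_cancel,
            show w.length = w.length - 1 + 1 by omega, pow_succ', ← mul_assoc,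
            ENNReal.inv_mul_cancel h0 h1, one_mul, Nat.add_sub_cancel]
        · rw [SGn, ← ENNReal.tsum_mul_right]
          simp only [← ENNReal.tsum_mul_left]
          rw [← ENNReal.tsum_prod]
          refine tsum_le_of_dec _ _ (fun s => s.1 ++ v :: s.2) fun w g => ?_
          obtain ⟨⟨g1, g2⟩, g3⟩ := of_ind_mul_ne g
          obtain ⟨m, w, rfl⟩ := List.append_of_mem g3
          have g4 := SWk.at X (s := u :: m) g1 hv
          have := g4.pos
          refine ⟨(m, w), rfl, ind_mul_le fun _ => le_of_eq ?_⟩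
          rw [ind_of (SWk.mid (s := []) g1 hv), ind_of (And.intro (And.intro g4 fun e => g2 (by
            simp at e ⊢; tauto)) fun e => (List.nodup_cons.1 g1.nd).1 (by simp [e])), one_mul,
            one_mul, ← pow_add]
          congr 1
          simp only [List.length_append, List.length_cons]
          omega
    _ ≤ _ := by
        refine (add_le_add (mul_le_mul_left (le_max_left _ h) _)
          (mul_le_mul_left (le_max_right x⁻¹ _) _)).trans ?_
        rw [← mul_add, ← ENNReal.tsum_add]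
        refine mul_le_mul_right (ENNReal.tsum_le_tsum fun w => le_of_eq ?_) _
        by_cases e : u ∈ w <;> simp [e, ind_of_not]

theorem sz_spoke (hz : G.Hm o N z) (h1 : 1 ≤ z.1) :
    x * ∑ s, G.SZ o N x z (G.yv z s) ≤ G.SY o N x z := by
  rw [← tsum_fintype (L := SummationFilter.unconditional Bool)]
  simp only [SZ, ← ENNReal.tsum_mul_left]
  rw [← ENNReal.tsum_prod]
  refine tsum_le_of_enc _ _ (fun s => G.yv z s.1 :: s.2) ?_ fun s g => ?_
  · rintro ⟨s, w⟩ ⟨s', w'⟩ - - e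
    obtain ⟨e, rfl⟩ := List.cons.inj e
    have := s_yv_ne (G := G) h1
    cases s <;> cases s' <;> simp_all
  · obtain ⟨g1, g2⟩ := of_ind_mul_ne (right_ne_zero_of_mul g)
    have := g1.pos
    rw [ind_of (And.intro g1 g2), ind_of (g1.cons hz (s_yv h1 _) g2), one_mul, one_mul, ← pow_succ']
    exact le_of_eq (congrArg _ (by simp only [List.length_cons]; omega))

variable (G o N x r) in
/-- arcs from the tube, charged to the walks to their start -/
noncomputable def SC (z : Pt) (F : Pt → List Pt → ℝ≥0∞) : ℝ≥0∞ := ∑' s : Pt × List Pt,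
  ind (G.Tb z s.1 ∧ G.Hm o N s.1) * (G.SZ o N x z s.1 * (r ^ (z.1 - s.1.1 + 1) * F s.1 s.2))

theorem sc_le (X : G.SCx G.Tb c4 k o) (h0 : r * x₀ ≠ 0) (h1 : x₀ ≠ ⊤) (hr : r ≤ 1)
    (hG : ∀ u v, G.SGn o N (r * x₀) u v ≤ h) (hiv : max x₀⁻¹ h ≤ iv) (hz : G.Hm o N z)
    {F : Pt → List Pt → ℝ≥0∞} (hF : ∀ b I, F b I ≠ 0 → ∃ e, G.Arc z b I e) :
    G.SC o N (r * x₀) r z F ≤
      r * ∑ s, G.SZ o N (r * x₀) z (G.yv z s) * G.sT (sawNm x₀ iv) z (some s) F := by
  have hr' : r ≠ ⊤ := ne_top_of_le_ne_top ENNReal.one_ne_top hr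
  have h2 : r * max (r * x₀)⁻¹ h ≤ iv := by
    rw [mul_max, ENNReal.mul_inv (Or.inl (left_ne_zero_of_mul h0)) (Or.inl hr'), ← mul_assoc,
      ENNReal.mul_inv_cancel (left_ne_zero_of_mul h0) hr', one_mul]
    exact (max_le_max le_rfl (mul_le_of_le_one_left' hr)).trans hiv
  simp only [sT, ← ENNReal.tsum_mul_left]
  rw [← Summable.tsum_finsetSum fun _ _ => ENNReal.summable, ← ENNReal.tsum_mul_left]
  refine ENNReal.tsum_le_tsum fun s => ind_mul_le fun g => ?_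
  rcases eq_or_ne (F s.1 s.2) 0 with e | e
  · simp [e]
  obtain ⟨e, A⟩ := hF _ _ e
  obtain ⟨ρ, g1, g2, g3⟩ := s_chain (Z := G.SZ o N (r * x₀) z) hz (by have := s_lev X hz; omega)
    (fun u v _ => sz_step X h0 (ENNReal.mul_ne_top hr' h1) hG) g.1 g.2 A.inner.2.2.2.1
    (A.2.2.2.2 _ A.inner.2.1)
  refine le_trans ?_ (mul_le_mul_right (Finset.single_le_sum (fun _ _ => zero_le)
    (Finset.mem_univ (G.tg z s.1 (s.2.headD z)))) _)
  rw [Option.elim_some, ind_of g.1, ind_of rfl, one_mul, one_mul,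
    show G.ch (sawNm x₀ iv).iv (sawNm x₀ iv).il z s.1 = iv ^ ρ from g2 iv]
  calc _ ≤ (max (r * x₀)⁻¹ h) ^ ρ * G.SZ o N (r * x₀) z (G.yv z (G.tg z s.1 (s.2.headD z))) *
        (r ^ (ρ + 1) * F s.1 s.2) :=
        mul_le_mul' g3 (mul_le_mul_left (pow_le_pow_of_le_one zero_le hr (by omega)) _)
    _ = r * (G.SZ o N (r * x₀) z (G.yv z (G.tg z s.1 (s.2.headD z))) *
        ((r * max (r * x₀)⁻¹ h) ^ ρ * F s.1 s.2)) := by rw [mul_pow]; ring
    _ ≤ _ := by gcongr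

theorem sc_dec {α ε : Type} {φ : α → ℝ≥0∞} (g : Pt → List Pt → ε → ℝ≥0∞)
    (dec : Pt → List Pt → List Pt → ε → α) {F : Pt → List Pt → ℝ≥0∞} {a : ℝ≥0∞}
    (hF : ∀ b I, ∑' e, g b I e ≤ a * F b I)
    (H : ∀ a, φ a ≠ 0 → ∃ b I w e, dec b I w e = a ∧ G.Tb z b ∧ G.Hm o N b ∧ G.SWk o N (b :: w) ∧
      z ∉ b :: w ∧ φ a ≤ x ^ (w.length - 1) * (r ^ (z.1 - b.1 + 1) * g b I e)) :
    ∑' a, φ a ≤ a * G.SC o N x r z F := by
  calc _ ≤ ∑' s : (Pt × List Pt) × List Pt × ε, ind (G.Tb z s.1.1 ∧ G.Hm o N s.1.1) *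
        (ind (G.SWk o N (s.1.1 :: s.2.1) ∧ z ∉ s.1.1 :: s.2.1) * x ^ (s.2.1.length - 1) *
          (r ^ (z.1 - s.1.1.1 + 1) * g s.1.1 s.1.2 s.2.2)) := by
        refine tsum_le_of_dec _ _ (fun s => dec s.1.1 s.1.2 s.2.1 s.2.2) fun a ha => ?_
        obtain ⟨b, I, w, e, h1, h2, h3, h4, h5, h6⟩ := H a ha
        exact ⟨((b, I), w, e), h1, by
          rwa [ind_of (And.intro h2 h3), ind_of (And.intro h4 h5), one_mul, one_mul]⟩
    _ ≤ _ := by
        rw [ENNReal.tsum_prod', SC, ← ENNReal.tsum_mul_left]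
        refine ENNReal.tsum_le_tsum fun s => ?_
        simp only [ENNReal.tsum_prod', ENNReal.tsum_mul_left, ENNReal.tsum_mul_right]
        exact (mul_le_mul_right (mul_le_mul_right (mul_le_mul_right (hF _ _) _) _) _).trans
          (le_of_eq (by rw [SZ]; ring))

theorem sy_dec {α ε : Type} {φ : α → ℝ≥0∞} (g : Pt → List Pt → ε → ℝ≥0∞)
    (dec : Pt → List Pt → List Pt → ε → α) {F : Pt → List Pt → ℝ≥0∞} {a : ℝ≥0∞} (P : Nm)
    (hF : ∀ b I, ∑' e, g b I e ≤ a * F b I)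
    (H : ∀ a, φ a ≠ 0 → ∃ b I w e, dec b I w e = a ∧ G.Tb z b ∧ G.SWk o N (z :: w) ∧
      φ a ≤ x ^ (w.length - 1) * g b I e) :
    ∑' a, φ a ≤ G.SY o N x z * (a * G.sT P z none F) := by
  calc _ ≤ ∑' s : (Pt × List Pt) × List Pt × ε, ind (G.Tb z s.1.1) *
        (ind (G.SWk o N (z :: s.2.1)) * x ^ (s.2.1.length - 1) * g s.1.1 s.1.2 s.2.2) := by
        refine tsum_le_of_dec _ _ (fun s => dec s.1.1 s.1.2 s.2.1 s.2.2) fun a ha => ?_
        obtain ⟨b, I, w, e, h1, h2, h3, h4⟩ := H a ha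
        exact ⟨((b, I), w, e), h1, by rwa [ind_of h2, ind_of h3, one_mul, one_mul]⟩
    _ ≤ _ := by
        rw [ENNReal.tsum_prod', sT, ← ENNReal.tsum_mul_left, ← ENNReal.tsum_mul_left]
        refine ENNReal.tsum_le_tsum fun s => ?_
        simp only [ENNReal.tsum_prod', ENNReal.tsum_mul_left, ENNReal.tsum_mul_right]
        exact (mul_le_mul_right (mul_le_mul_right (hF _ _) _) _).trans
          (le_of_eq (by rw [SY, Option.elim_none]; ring))

end Grid
end Pool.Agent.P.MP_e4ac67_pr.Gr
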