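import Pool.Agent.P.MP_e4ac67_pr.S.Glue

/-! The loads of a vertex of excess degree are covered by its launches. -/

open scoped ENNReal

namespace Pool.Agent.P.MP_e4ac67_pr.Gr
namespace Grid
variable {G : Grid} {k : ℕ} {o : Pt} {N : ℕ} {z b e y : Pt} {γ I w : List Pt}
  {x₀ h iv r : ℝ≥0∞}

theorem s_arc {s t : List Pt} (hc : (s ++ e :: I.reverse ++ b :: t).IsChain G.Adj) (hn : I.Nodup)
    (he : e ∉ I) (h0 : I ≠ []) (hw : ∀ v ∈ I, ¬Wz G.Tb z v) : G.Arc z b I e := by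
  refine ⟨?_, hn, he, h0, hw⟩
  have := List.isChain_reverse.2 ((ch_ifx hc (show e :: I.reverse ++ [b] <:+: _ from
    ⟨s, t, by simp⟩)).imp fun _ _ h => h.symm)
  simpa using this

theorem s_off_cv (X : G.SCx G.Tb c4 k o) (hk : k < G.dg z) (hb : G.Tb z b) :
    ¬G.Adj (G.cv z) b ∧ ¬Wz G.Tb z (G.cv z) := by
  have h3 := gap_ge X.h7 hk
  refine ⟨fun e => (X.tube.lev _ _ hb).2 (up_eq (i := 4) (by omega) (by omega) e
    (X.tube.lev _ _ hb).1), fun e => ?_⟩
  have := X.tube.wz_le e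
  rw [(s_cv h3).1] at this
  omega

theorem s_mid {x a : ℝ≥0∞} (hG : ∀ u v, G.SGn o N x u v ≤ h) (u v : Pt) :
    ∑' m : List Pt, a * (ind ((v :: m ++ [u]).IsChain G.Adj ∧ (v :: m ++ [u]).Nodup ∧
      ∀ w ∈ v :: m ++ [u], G.Hm o N w) * x ^ (m.length + 1)) ≤ h * a := by
  rw [ENNReal.tsum_mul_left, mul_comm]
  exact mul_le_mul_left (hG u v) _

theorem s_pow {x a q : ℝ≥0∞} {n i m : ℕ} (e : n = i + 1 + m) (h : x ^ m ≤ q * a) :
    x ^ n ≤ x ^ i * (q * (x * a)) := by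
  rw [e, pow_add, pow_succ, mul_assoc, mul_left_comm q]
  exact mul_le_mul_right (mul_le_mul_right h _) _

theorem s_pow2 {x a q : ℝ≥0∞} {n i m j : ℕ} (e : n = i + 1 + m + j) (h : x ^ m ≤ q * a) :
    x ^ n ≤ x ^ i * (q * (x * a * x ^ j)) := by
  rw [e, pow_add]
  exact (mul_le_mul_left (s_pow rfl h) _).trans (le_of_eq (by ring))

theorem s_pow0 (hr : r ≤ 1) {n i m : ℕ} (e : n = i + 1 + m) :
    (r * x₀) ^ n ≤ (r * x₀) ^ i * (r * x₀ * x₀ ^ m) := by
  simpa using s_pow e (s_scale (x₀ := x₀) hr (Nat.zero_le m))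

variable (G o N) in
/-- the weight of the stops with the property `C` -/
noncomputable def SW (x : ℝ≥0∞) (C : List Pt → Pt → Prop) : ℝ≥0∞ :=
  ∑' s : List Pt × Pt, ind (G.SSt o N s.1 s.2 ∧ C s.1 s.2) * x ^ (s.1.length - 1)

theorem sw_split {x : ℝ≥0∞} {C A B : List Pt → Pt → Prop}
    (H : ∀ γ y, G.SSt o N γ y → C γ y → A γ y ∨ B γ y) :
    G.SW o N x C ≤ G.SW o N x A + G.SW o N x B := by
  rw [SW, SW, SW, ← ENNReal.tsum_add]
  refine ENNReal.tsum_le_tsum fun s => ind_mul_le fun g => ?_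
  rcases H _ _ g.1 g.2 with e | e <;> rw [ind_of (And.intro g.1 e), one_mul]
  exacts [le_self_add, le_add_self]

/-- the last arc of a walk -/
theorem SSt.arc (X : G.SCx G.Tb c4 k o) (hz : G.Hm o N z) (g : G.SSt o N γ y) (hy : Wz G.Tb z y)
    (h0 : itr G.Tb z γ ≠ []) : ∃ w, γ = itr G.Tb z γ ++ bas G.Tb z γ :: w ∧
      Wz G.Tb z (bas G.Tb z γ) ∧ G.Hm o N (bas G.Tb z γ) ∧ G.SWk o N (bas G.Tb z γ :: w) ∧
      G.Arc z (bas G.Tb z γ) (itr G.Tb z γ).reverse y := by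
  obtain ⟨w, h1, h2, h3, h4⟩ := g.1.cut X hz
  refine ⟨w, h1, h2, h3, h4, s_arc (s := []) (t := w) ?_
    (List.nodup_reverse.2 (h1 ▸ g.1.nd).of_append_left) (fun e => itr_not (by simpa using e) hy)
    (by simpa using h0) fun v hv => itr_not (by simpa using hv)⟩
  have := g.2.1
  rw [h1] at this
  simpa using this

theorem Arc.flip (A : G.Arc z b I e) (hb : Wz G.Tb z b) : G.Arc z e I.reverse b :=
  s_arc (s := []) (t := []) (by simpa using A.1) (List.nodup_reverse.2 A.2.1)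
    (fun g => A.2.2.2.2 b (by simpa using g) hb) (by simpa using A.2.2.2.1)
    fun v hv => A.2.2.2.2 v (by simpa using hv)

theorem hd_rev {f : Pt} (h : I.getLast? = some f) : I.reverse.headD z = f := by
  simp [List.headD_eq_head?_getD, h]

theorem last_rev {f : Pt} (h : I.head? = some f) : I.reverse.getLastD z = f := by
  simp [List.getLastD_eq_getLast?, h]

section
variable (X : G.SCx G.Tb c4 k o) (hr : r ≤ 1) (hG : ∀ u v, G.SGn o N (r * x₀) u v ≤ h)
  (hz : G.Hm o N z) (hk : k < G.dg z)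
include X hr hz hk

theorem ld_S : G.SW o N (r * x₀) (fun γ y => ∃ B st, γ = B ++ G.cv z :: z :: st ∧
      (∀ v ∈ B, ¬Wz G.Tb z v) ∧ G.Tb z y) ≤
    G.SY o N (r * x₀) z * (r * x₀ * G.sT (sawNm x₀ iv) z none (G.fS (sawNm x₀ iv) z)) := by
  refine sy_dec (fun b I (_ : Unit) => r * x₀ * G.fS (sawNm x₀ iv) z b I)
    (fun b I w _ => (I ++ G.cv z :: z :: w, b)) _ (fun b I => by simp) ?_
  rintro ⟨γ, y⟩ g
  obtain ⟨⟨g1, g2, -⟩, B, st, rfl, g4, g5⟩ := of_ind_mul_ne g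
  simp only at g1 g2 g5 ⊢
  have g6 := SWk.at X (s := B ++ [G.cv z]) (by simpa using g1) hz
  have := g6.pos
  have A : G.Arc z y B (G.cv z) := ⟨ch_pfx g2 ⟨z :: st, by simp⟩, g1.nd.of_append_left,
    fun e => (List.nodup_append.1 g1.nd).2.2 _ e _ (by simp) rfl, by
      rintro rfl
      exact (s_off_cv X hk g5).1 (List.isChain_cons_cons.1 g2).1.symm, g4⟩
  refine ⟨y, B, st, (), rfl, g5, g6, ind_mul_le fun _ => ?_⟩
  rw [fS, ind_of A, wt_one (Nat.zero_le _) fun _ => Iff.rfl, one_mul,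
    show (sawNm x₀ iv).p = x₀ from rfl, ← pow_succ']
  exact s_pow0 hr (by simp; omega)

include hG in
theorem ld_X : G.SW o N (r * x₀) (fun γ y => G.Hm o N y ∧ ∃ B st, γ = B ++ G.cv z :: z :: st ∧
      (∀ v ∈ B, ¬Wz G.Tb z v) ∧ y ∈ st ∧ ¬G.Tb z y) ≤
    r * x₀ * h * G.SC o N (r * x₀) r z (G.fX (sawNm x₀ iv) false z) := by
  refine sc_dec (fun b I (e : ℕ × List Pt) => r * x₀ * (ind (G.Arc z b I (G.cv z) ∧ 1 ≤ e.1 ∧
      e.1 ≤ I.length) * x₀ ^ (I.length + 1)) * (ind ((z :: e.2 ++ [vx b I z e.1]).IsChain G.Adj ∧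
      (z :: e.2 ++ [vx b I z e.1]).Nodup ∧ ∀ w ∈ z :: e.2 ++ [vx b I z e.1], G.Hm o N w) *
      (r * x₀) ^ (e.2.length + 1)))
    (fun b I w e => (I.drop e.1 ++ G.cv z :: z :: e.2 ++ (I.take e.1).reverse ++ b :: w,
      vx b I z e.1)) (fun b I => ?_) ?_
  · rw [ENNReal.tsum_prod', fX, ← ENNReal.tsum_mul_left]
    dsimp only
    refine ENNReal.tsum_le_tsum fun t => (s_mid hG _ _).trans (le_of_eq ?_)
    by_cases e : G.Arc z b I (G.cv z) ∧ 1 ≤ t ∧ t ≤ I.length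
    · rw [wt_one e.2.2 (by simp [sawNm]), show bk (sawNm x₀ iv) = 1 from rfl,
        show (sawNm x₀ iv).p = x₀ from rfl]
      ring
    · simp [ind_of_not e]
  rintro ⟨γ, y⟩ g
  obtain ⟨⟨g1, g2, -⟩, hy, B, st, rfl, g4, g5, g6⟩ := of_ind_mul_ne g
  simp only at g1 g2 g5 g6 hy ⊢
  obtain ⟨m, s, rfl⟩ := List.append_of_mem g5
  have nz : z ∉ m ++ y :: s := (List.nodup_cons.1 g1.nd.of_append_right.of_cons).1
  have ny : ¬Wz G.Tb z y := fun e => e.elim (fun e => nz (by simp [e])) g6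
  obtain ⟨w, h1, h2, h3, h4⟩ := (SWk.at X (s := B ++ G.cv z :: z :: m) (by simpa using g1) hy).cut
    X hz
  have h5 : ∀ v ∈ itr G.Tb z (y :: s), ¬Wz G.Tb z v := fun v => itr_not
  rw [itr_pos ny] at h1 h5
  generalize itr G.Tb z s = J at h1 h5
  generalize bas G.Tb z (y :: s) = b at h1 h2 h3 h4
  obtain rfl : s = J ++ b :: w := (List.cons.inj h1).2
  have := h4.pos
  have nd := g1.nd
  have A : G.Arc z b ((y :: J).reverse ++ B) (G.cv z) := by
    refine ⟨?_, ?_, ?_, by simp, fun v hv => (List.mem_append.1 hv).elim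
      (fun e => h5 v (List.mem_reverse.1 e)) (g4 v)⟩
    · have c1 := List.isChain_reverse.2 ((ch_ifx g1.ch (show y :: J ++ [b] <:+: _ from
        ⟨B ++ G.cv z :: z :: m, w, by simp⟩)).imp fun _ _ h => h.symm)
      have c2 := ch_pfx g2 (show y :: B ++ [G.cv z] <+: _ from ⟨z :: m ++ y :: J ++ b :: w, by simp⟩)
      have := List.isChain_split.2 ⟨(show (b :: J.reverse ++ [y]).IsChain G.Adj by simpa using c1), c2⟩
      simpa using this
    · simp only [List.nodup_append, List.nodup_cons, List.nodup_reverse, List.mem_append,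
        List.mem_cons, List.mem_reverse] at nd ⊢
      grind
    · simp only [List.nodup_append, List.nodup_cons, List.mem_append,
        List.mem_cons, List.mem_reverse] at nd ⊢
      grind
  have ev : vx b ((y :: J).reverse ++ B) z (J.length + 1) = y := by simp [vx]
  refine ⟨b, (y :: J).reverse ++ B, w, (J.length + 1, m), ?_, h2.resolve_left fun e =>
    nz (by simp [e]), h3, h4, fun e => nz (by simp at e ⊢; tauto), ind_mul_le fun _ => ?_⟩
  · rw [ev, List.drop_left' (by simp), List.take_left' (by simp)]; simp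
  · rw [ev, ind_of (And.intro A (by simp)), ind_of (SWk.mid (s := B ++ [G.cv z])
      (w := J ++ b :: w) (by simpa using g1) hy), one_mul, one_mul]
    exact s_pow2 (by simp; omega) (A.scaleC (gap_ge X.h7 hk) hr)

theorem ld_Z : G.SW o N (r * x₀) (fun γ y => y = z ∧ z ∉ γ ∧ ∃ x f, (itr G.Tb z γ).head? = some x ∧
      (itr G.Tb z γ).getLast? = some f ∧ G.VZ k z f x) ≤
    r * x₀ * G.SC o N (r * x₀) r z (G.fSz k (sawNm x₀ iv) z) := by
  refine sc_dec (fun b I (_ : Unit) => r * x₀ * G.fSz k (sawNm x₀ iv) z b I)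
    (fun b I w _ => (I.reverse ++ b :: w, z)) (fun b I => by simp) ?_
  rintro ⟨γ, y⟩ g
  obtain ⟨g1, rfl, g2, x, f, g3, g4, g5⟩ := of_ind_mul_ne g
  simp only at g1 g2 g3 g4 ⊢
  obtain ⟨w, h1, h2, h3, h4, A⟩ := g1.arc X hz (Or.inl rfl) (by rintro e; simp [e] at g3)
  rw [← hd_rev (z := y) g4, ← last_rev (z := y) g3] at g5
  have := h4.pos
  refine ⟨_, _, w, (), by rw [List.reverse_reverse, ← h1], h2.resolve_left fun e =>
    g2 (by rw [h1, e]; simp), h3, h4, fun e => g2 (h1 ▸ List.mem_append_right _ e),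
    ind_mul_le fun _ => ?_⟩
  rw [fSz, ind_of (And.intro A g5), wt_one le_rfl fun _ => Iff.rfl, one_mul]
  exact s_pow (by have := congrArg List.length h1; simp at this ⊢; omega)
    (A.scale hr (A.deepZ X.tube X.h7 hk (by have := s_lev X hz; omega) g5))

omit hk in
theorem ld_ZW : G.SW o N (r * x₀) (fun γ y => G.Tb z y ∧ bas G.Tb z γ = z ∧ ∃ x f,
      (itr G.Tb z γ).head? = some x ∧ (itr G.Tb z γ).getLast? = some f ∧ f ≠ G.cv z ∧
      ¬(G.Rt z 4 f ↔ G.Rt z 4 x)) ≤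
    G.SY o N (r * x₀) z * (r * x₀ * G.sT (sawNm x₀ iv) z none (G.fZW (sawNm x₀ iv) z)) := by
  refine sy_dec (fun b I (_ : Unit) => r * x₀ * G.fZW (sawNm x₀ iv) z b I)
    (fun b I w _ => (I ++ z :: w, b)) _ (fun b I => by simp) ?_
  rintro ⟨γ, y⟩ g
  obtain ⟨g1, g2, e, x, f, g3, g4, g5, g6⟩ := of_ind_mul_ne g
  simp only at g1 g2 e g3 g4 ⊢
  obtain ⟨w, h1, -, -, h4, A⟩ := g1.arc X hz (Or.inr g2) (by rintro e; simp [e] at g3)
  rw [e] at h1 h4 A
  have A := A.flip (Or.inl rfl)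
  rw [List.reverse_reverse] at A
  have := h4.pos
  refine ⟨y, _, w, (), by rw [← h1], g2, h4, ind_mul_le fun _ => ?_⟩
  rw [fZW, ind_of (And.intro A (by
      rw [List.headD_eq_head?_getD, List.getLastD_eq_getLast?, g3, g4]
      exact ⟨g5, fun g => g6 g.symm⟩)), wt_one (Nat.zero_le _) fun _ => Iff.rfl, one_mul]
  exact s_pow0 hr (by have := congrArg List.length h1; simp at this ⊢; omega)

include hG in
theorem ld_WW : G.SW o N (r * x₀) (fun γ y => G.Tb z y ∧ bas G.Tb z γ ≠ z ∧ ∃ x f,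
      (itr G.Tb z γ).head? = some x ∧ (itr G.Tb z γ).getLast? = some f ∧
      ¬(G.Rt z 4 f ↔ G.Rt z 4 x)) ≤
    G.SY o N (r * x₀) z * (r * x₀ * h * G.sT (sawNm x₀ iv) z none (G.fWS (sawNm x₀ iv) z)) +
      r * x₀ * G.SC o N (r * x₀) r z (G.fWS (sawNm x₀ iv) z) := by
  refine (sw_split (A := fun γ y => _ ∧ z ∈ γ) (B := fun γ y => _ ∧ z ∉ γ) fun γ y _ g =>
    (em (z ∈ γ)).imp (And.intro g) (And.intro g)).trans (add_le_add ?_ ?_)
  · refine sy_dec (fun b I (e : Pt × List Pt) => r * x₀ * (ind (G.Tb z e.1 ∧ G.Arc z b I e.1 ∧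
        ¬(G.Rt z 4 (I.headD z) ↔ G.Rt z 4 (I.getLastD z))) * x₀ ^ I.length) *
        (ind ((b :: e.2 ++ [z]).IsChain G.Adj ∧ (b :: e.2 ++ [z]).Nodup ∧
          ∀ w ∈ b :: e.2 ++ [z], G.Hm o N w) * (r * x₀) ^ (e.2.length + 1)))
      (fun b I w e => (I.reverse ++ b :: e.2 ++ z :: w, e.1)) _ (fun b I => ?_) ?_
    · rw [ENNReal.tsum_prod', fWS, ← ENNReal.tsum_mul_left]
      dsimp only
      refine ENNReal.tsum_le_tsum fun t => (s_mid hG _ _).trans (le_of_eq ?_)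
      rw [wt_one le_rfl fun _ => Iff.rfl]
      ring
    rintro ⟨γ, y⟩ g
    obtain ⟨g1, ⟨g2, e, x, f, g3, g4, g5⟩, g6⟩ := of_ind_mul_ne g
    simp only at g1 g2 e g3 g4 g6 ⊢
    obtain ⟨w, h1, h2, h3, h4, A⟩ := g1.arc X hz (Or.inr g2) (by rintro e; simp [e] at g3)
    rw [← hd_rev (z := z) g4, ← last_rev (z := z) g3] at g5
    have h5 : z ∈ w := by
      rw [h1] at g6
      exact (List.mem_cons.1 ((List.mem_append.1 g6).resolve_left fun g =>
        itr_not g (Or.inl rfl))).resolve_left e.symm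
    obtain ⟨m, w, rfl⟩ := List.append_of_mem h5
    have h6 := SWk.at X (s := _ :: m) h4 hz
    have := h6.pos
    refine ⟨_, _, w, (y, m), by rw [List.reverse_reverse, List.append_assoc]; exact congrArg (·, y) h1.symm,
      h2.resolve_left e, h6, ind_mul_le fun _ => ?_⟩
    rw [ind_of (And.intro g2 (And.intro A g5)), ind_of (SWk.mid (s := []) h4 hz), one_mul, one_mul]
    simpa using s_pow2 (i := w.length - 1) (j := m.length + 1) (n := γ.length - 1)
      (by have := congrArg List.length h1; simp at this ⊢; omega)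
      (s_scale (x₀ := x₀) hr (Nat.zero_le (itr G.Tb z γ).length))
  · refine sc_dec (fun b I (e : Pt) => r * x₀ * (ind (G.Tb z e ∧ G.Arc z b I e ∧
        ¬(G.Rt z 4 (I.headD z) ↔ G.Rt z 4 (I.getLastD z))) * x₀ ^ I.length))
      (fun b I w e => (I.reverse ++ b :: w, e)) (fun b I => le_of_eq ?_) ?_
    · rw [fWS, ← ENNReal.tsum_mul_left]
      exact tsum_congr fun e => by rw [wt_one le_rfl fun _ => Iff.rfl]
    rintro ⟨γ, y⟩ g
    obtain ⟨g1, ⟨g2, e, x, f, g3, g4, g5⟩, g6⟩ := of_ind_mul_ne g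
    simp only at g1 g2 e g3 g4 g6 ⊢
    obtain ⟨w, h1, h2, h3, h4, A⟩ := g1.arc X hz (Or.inr g2) (by rintro e; simp [e] at g3)
    rw [← hd_rev (z := z) g4, ← last_rev (z := z) g3] at g5
    have := h4.pos
    refine ⟨_, _, w, y, by rw [List.reverse_reverse, ← h1], h2.resolve_left e, h3, h4,
      fun e => g6 (h1 ▸ List.mem_append_right _ e), ind_mul_le fun _ => ?_⟩
    rw [ind_of (And.intro g2 (And.intro A g5)), one_mul]
    exact s_pow (by have := congrArg List.length h1; simp at this ⊢; omega)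
      (A.scale hr (A.deep X.tube (gap_ge X.h7 hk) g5))

include hG in
theorem ld_L : ∑' w, r * x₀ * (ind (G.SWk o N (z :: w) ∧ G.cv z ∈ w) * (r * x₀) ^ (w.length - 1)) ≤
    r * x₀ * h * G.SC o N (r * x₀) r z (G.fL (sawNm x₀ iv) z) := by
  refine sc_dec (fun b I (e : List Pt) => r * x₀ * (ind (G.Arc z b I (G.cv z)) *
      x₀ ^ (I.length + 1)) * (ind ((z :: e ++ [G.cv z]).IsChain G.Adj ∧
      (z :: e ++ [G.cv z]).Nodup ∧ ∀ w ∈ z :: e ++ [G.cv z], G.Hm o N w) *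
      (r * x₀) ^ (e.length + 1)))
    (fun b I w e => e ++ G.cv z :: I.reverse ++ b :: w) (fun b I => ?_) fun w g => ?_
  · refine (s_mid hG _ _).trans (le_of_eq ?_)
    rw [fL, wt_all (by simp [sawNm])]
    ring
  obtain ⟨g1, g2⟩ := of_ind_mul_ne (right_ne_zero_of_mul g)
  obtain ⟨m, s, rfl⟩ := List.append_of_mem g2
  have h3 := gap_ge X.h7 hk
  have hc : G.Hm o N (G.cv z) := (g1.dom _ (by simp)).resolve_right fun e => by
    have := (s_cv h3).1
    have := hz.1.1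
    rw [e, nb_zero] at *
    omega
  have nz := (List.nodup_cons.1 g1.nd).1
  have g3 := SWk.at X (s := z :: m) g1 hc
  obtain ⟨w, h1, h2, h4, h5⟩ := g3.cut X hz
  have nc : ¬Wz G.Tb z (G.cv z) := fun e => by
    have := X.tube.wz_le e
    rw [(s_cv h3).1] at this
    omega
  have h6 : ∀ v ∈ itr G.Tb z s, ¬Wz G.Tb z v := fun v => itr_not
  rw [itr_pos nc] at h1
  generalize itr G.Tb z s = J at h1 h6
  generalize bas G.Tb z (G.cv z :: s) = b at h1 h2 h4 h5
  obtain rfl : s = J ++ b :: w := (List.cons.inj h1).2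
  have hb := h2.resolve_left fun e => nz (by simp [e])
  have := h5.pos
  have A : G.Arc z b J.reverse (G.cv z) := s_arc (s := []) (t := w) (by simpa using g3.ch)
    (List.nodup_reverse.2 g3.nd.of_cons.of_append_left)
    (fun e => (List.nodup_cons.1 g3.nd).1 (by simp at e; simp [e])) (by
      rw [Ne, List.reverse_eq_nil_iff]
      rintro rfl
      exact (s_off_cv X hk hb).1 (List.isChain_cons_cons.1 g3.ch).1)
    fun v hv => h6 v (List.mem_reverse.1 hv)
  refine ⟨b, J.reverse, w, m, by simp, hb, h4, h5, fun e => nz (by simp at e ⊢; tauto), ?_⟩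
  rw [ind_of (And.intro g1 g2), ind_of A, ind_of (SWk.mid (s := []) g1 hc), one_mul, one_mul,
    one_mul, ← pow_succ']
  exact s_pow2 (by simp; omega) (A.scaleC h3 hr)

end
end Grid
end Pool.Agent.P.MP_e4ac67_pr.Gr
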