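import Pool.Agent.P.MP_e4ac67_pr.S.Load

/-! The marked arcs, and the sum of the loads. -/

open scoped ENNReal

namespace Pool.Agent.P.MP_e4ac67_pr.Gr
namespace Grid
variable {G : Grid} {k : ℕ} {o : Pt} {N : ℕ} {z b e y : Pt} {γ I w L R : List Pt}
  {x₀ h iv r : ℝ≥0∞}

theorem SMA.conv (X : G.SCx G.Tb c4 k o) (hz : 1 ≤ z.1) (hk : k < G.dg z)
    (H : G.SMA G.Tb c4 k z L R) (eI : I = (itr G.Tb z L).reverse ++ itr G.Tb z R)
    (A : G.Arc z (bas G.Tb z L) I (bas G.Tb z R)) {t j : ℕ} (et : t = (itr G.Tb z L).length)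
    (hj : j = t ∨ j = t + 1) (hv : vx (bas G.Tb z L) I (bas G.Tb z R) j ≠ z) :
    G.MA (sawNm x₀ iv) z (bas G.Tb z L) I (bas G.Tb z R) t j ∧
      1 ≤ ind (G.Pk k z (bas G.Tb z L) I (bas G.Tb z R) t) +
        ind (G.Al k z (bas G.Tb z L) I (bas G.Tb z R) t) ∧ ∃ v ∈ I, z.1 < v.1 := by
  obtain ⟨f, l, lo, hi, rfl, rfl, C, -, H⟩ := H
  have h3 := gap_ge X.h7 hk
  have e1 : I.headD z = f := by rw [List.headD_eq_head?_getD, eI, C.fst]; rfl
  have e2 : I.getLastD z = l := by rw [List.getLastD_eq_getLast?, eI, C.lst]; rfl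
  have e3 : I.take t = (itr G.Tb z L).reverse := by rw [eI, List.take_left' (by simp [et])]
  have e4 : I.drop t = itr G.Tb z R := by rw [eI, List.drop_left' (by simp [et])]
  have c1 : ¬G.Rt z 4 f := C.left
  have c2 : G.Rt z 5 l := C.right
  refine ⟨⟨A, e1 ▸ c1, e2 ▸ c2, by simp [eI, et], hj, hv, by simp [sawNm]⟩, ?_,
    A.deep X.tube h3 fun g => c1 (e1 ▸ g.2 (e2 ▸ s_rt_mono (by omega) (by omega) c2))⟩
  by_cases p : G.Pk k z (bas G.Tb z L) I (bas G.Tb z R) t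
  · rw [ind_of p]; exact le_self_add
  refine le_add_left (ind_of (And.intro p ?_)).ge
  rw [Pk] at p
  rw [e1, e2, e3, e4, List.reverse_reverse] at p ⊢
  obtain ⟨-, a1, a2, a3, a4, -⟩ := A.inner
  rw [e1] at a1 a3
  rw [e2] at a2 a4
  have l1 : G.lo G.Tb z (bas G.Tb z L) f ≤ 3 := by
    by_cases g : bas G.Tb z L = z
    · have := (X.tube.left (g := 4) h3 hz (g ▸ a3) (A.2.2.2.2 _ a1) (Or.inl rfl)).2.2
      rw [lo, if_pos g]
      exact not_lt.1 fun g' => c1 (this.2 g')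
    · have := (X.tube.lo_def hz g f).1
      omega
  have l2 : 5 ≤ G.hi G.Tb z (bas G.Tb z R) l := by
    by_cases g : bas G.Tb z R = z
    · rw [hi, if_pos g]
      exact (X.tube.left (g := 5) h3 hz (g ▸ a4.symm) (A.2.2.2.2 _ a2) (Or.inr rfl)).2.2.1 c2
    · have := (X.tube.hi_def hz g l).1
      omega
  rcases H.resolve_left p with H | H
  · have := (X.tube.lo_def hz H.1 f).2.1
    exact Or.inl ⟨H, H.visit p (by omega) (fun g => itr_not g (Or.inr this))
      fun g => itr_not g (Or.inr this)⟩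
  · have := (X.tube.hi_def hz H.1 l).2.2.1
    exact Or.inr ⟨H, List.mem_reverse.2 (H.visit p (by omega) (fun g => itr_not g (Or.inr this))
      fun g => itr_not g (Or.inr this))⟩

/-- the shape of a walk which closes a marked arc -/
theorem SSF.shape (X : G.SCx G.Tb c4 k o) (hz : G.Hm o N z) (hy : G.Hm o N y) (g : G.SSt o N γ y)
    (H : G.SSF G.Tb c4 k z γ y) : ∃ K e m J b w, γ = K ++ e :: m ++ y :: J ++ b :: w ∧
      itr G.Tb z γ = K ∧ bas G.Tb z γ = e ∧ itr G.Tb z (y :: J ++ b :: w) = y :: J ∧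
      bas G.Tb z (y :: J ++ b :: w) = b ∧ Wz G.Tb z e ∧ e ≠ b ∧ G.Tb z b ∧ G.Hm o N b ∧
      G.SWk o N (b :: w) ∧ z ∉ b :: w ∧ y ≠ z ∧ G.Arc z b ((y :: J).reverse ++ K) e ∧
      (G.SMA G.Tb c4 k z γ (y :: J ++ b :: w) ∨ G.SMA G.Tb c4 k z (y :: J ++ b :: w) γ) := by
  obtain ⟨P, st, rfl, h1, h2, h3⟩ := H
  obtain ⟨w, g1, g2, g3, g4⟩ := (SWk.at X g.1 hy).cut X hz
  have h4 : y ∉ itr G.Tb z (P ++ y :: st) := by
    have : y ∈ itr G.Tb z (y :: st) := by rw [itr_pos h2]; simp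
    rcases h3 with ⟨_, _, _, _, -, -, -, d, -⟩ | ⟨_, _, _, _, -, -, -, d, -⟩
    exacts [fun e => d y e this, d y this]
  obtain ⟨m, g5, g6⟩ := itr_bas (W := G.Tb) (z := z) (w := P) (by
    by_contra e
    push Not at e
    exact h4 (by rw [(itr_append e).1, itr_pos h2]; simp))
  have h5 : ∀ v ∈ itr G.Tb z P, ¬Wz G.Tb z v := fun v => itr_not
  have h6 : ∀ v ∈ itr G.Tb z (y :: st), ¬Wz G.Tb z v := fun v => itr_not
  have h7 := itr_pos (w := st) h2
  generalize itr G.Tb z P = K at g5 h5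
  generalize bas G.Tb z P = e at g5 g6
  generalize itr G.Tb z st = J at h7
  generalize hb : bas G.Tb z (y :: st) = b at g1 g2 g3 g4
  rw [h7] at g1 h6
  obtain rfl : st = J ++ b :: w := (List.cons.inj g1).2
  subst g5
  have h8 := itr_append (w := e :: m ++ y :: (J ++ b :: w)) h5
  rw [List.cons_append, itr_neg g6, bas_neg g6, List.append_nil] at h8
  have nd := g.1.nd
  refine ⟨K, e, m, J, b, w, by simp, by simpa using h8.1, by simpa using h8.2, h7, hb, g6, ?_,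
    g2.resolve_left fun g => h1 (by simp [g]), g3, g4, fun g => h1 (List.mem_append_right _ g),
    fun g => h2 (Or.inl g), ⟨?_, ?_, fun g => ?_, by simp, fun v hv => (List.mem_append.1 hv).elim
      (fun e => h6 v (List.mem_reverse.1 e)) (h5 v)⟩, h3⟩
  · rintro rfl
    simp [List.nodup_append] at nd
  · have c1 := List.isChain_reverse.2 ((ch_ifx g.1.ch (show y :: J ++ [b] <:+: _ from
      ⟨K ++ e :: m, w, by simp⟩)).imp fun _ _ h => h.symm)
    have c2 := ch_pfx g.2.1 (show y :: K ++ [e] <+: _ from ⟨m ++ y :: J ++ b :: w, by simp⟩)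
    have := List.isChain_split.2 ⟨(show (b :: J.reverse ++ [y]).IsChain G.Adj by simpa using c1), c2⟩
    simpa using this
  · simp only [List.nodup_append, List.nodup_cons, List.nodup_reverse, List.mem_append,
      List.mem_cons, List.mem_reverse] at nd ⊢
    grind
  · exact (List.mem_append.1 g).elim (fun g => h6 e (List.mem_reverse.1 g) g6) fun g => h5 e g g6

section
variable (X : G.SCx G.Tb c4 k o) (hr : r ≤ 1) (hG : ∀ u v, G.SGn o N (r * x₀) u v ≤ h)
  (hz : G.Hm o N z) (hk : k < G.dg z)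
include X hr hG hz hk

theorem ld_F : G.SW o N (r * x₀) (fun γ y => G.Hm o N y ∧ G.SSF G.Tb c4 k z γ y) ≤
    r * x₀ * h * G.SC o N (r * x₀) r z (G.fFS k (sawNm x₀ iv) z) := by
  let φ : Bool → Pt → List Pt → Pt → ℕ → ℝ≥0∞ := fun s bL I bR t =>
    ind (G.MA (sawNm x₀ iv) z bL I bR t (cond s t (t + 1)) ∧ cond s (1 ≤ t) (t < I.length)) *
      ((ind (G.Pk k z bL I bR t) + ind (G.Al k z bL I bR t)) *
        G.wF (sawNm x₀ iv) z bL I bR t (cond s t (t + 1)))
  let τ : List Pt → Bool × ℕ → ℕ := fun I s => cond s.1 s.2 (I.length - s.2)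
  refine sc_dec (fun b I (e : Pt × (Bool × ℕ) × List Pt) => r * x₀ *
      (ind (Wz G.Tb z e.1 ∧ e.1 ≠ b) * cond e.2.1.1 (φ true b I e.1 e.2.1.2)
        (φ false e.1 I.reverse b e.2.1.2)) *
      (ind ((e.1 :: e.2.2 ++ [vx b I z (τ I e.2.1)]).IsChain G.Adj ∧
        (e.1 :: e.2.2 ++ [vx b I z (τ I e.2.1)]).Nodup ∧
        ∀ w ∈ e.1 :: e.2.2 ++ [vx b I z (τ I e.2.1)], G.Hm o N w) * (r * x₀) ^ (e.2.2.length + 1)))
    (fun b I w e => (I.drop (τ I e.2.1) ++ e.1 :: e.2.2 ++ (I.take (τ I e.2.1)).reverse ++ b :: w,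
      vx b I z (τ I e.2.1))) (fun b I => ?_) ?_
  · rw [ENNReal.tsum_prod', fFS, ← ENNReal.tsum_mul_left]
    refine ENNReal.tsum_le_tsum fun e => ?_
    rw [ENNReal.tsum_prod']
    dsimp only
    refine (ENNReal.tsum_le_tsum fun t => s_mid hG _ _).trans (le_of_eq ?_)
    rw [ENNReal.tsum_prod', tsum_fintype, Fintype.sum_bool]
    simp only [ENNReal.tsum_mul_left, cond_true, cond_false, fH, φ]
    ring
  rintro ⟨γ, y⟩ g
  obtain ⟨g1, hy, g2⟩ := of_ind_mul_ne g
  simp only at g1 hy g2 ⊢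
  obtain ⟨K, e, m, J, b, w, rfl, h1, h2, h3, h4, h5, h6, h7, h8, h9, h10, h11, A, H⟩ :=
    g2.shape X hz hy g1
  have z1 : 1 ≤ z.1 := by have := s_lev X hz; omega
  have := h9.pos
  have ev : vx b ((y :: J).reverse ++ K) z (J.length + 1) = y := by simp [vx]
  suffices ∃ s : Bool × ℕ, τ ((y :: J).reverse ++ K) s = J.length + 1 ∧
      (∃ v ∈ (y :: J).reverse ++ K, z.1 < v.1) ∧ x₀ ^ ((y :: J).reverse ++ K).length ≤
        cond s.1 (φ true b ((y :: J).reverse ++ K) e s.2)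
          (φ false e ((y :: J).reverse ++ K).reverse b s.2) by
    obtain ⟨s, e1, e2, e3⟩ := this
    refine ⟨b, (y :: J).reverse ++ K, w, (e, s, m), ?_, h7, h8, h9, h10, ind_mul_le fun _ => ?_⟩
    · simp only [e1, ev]
      rw [List.drop_left' (by simp), List.take_left' (by simp)]; simp
    · simp only [e1, ev]
      rw [ind_of (And.intro h5 h6), ind_of (SWk.mid (s := K) (w := J ++ b :: w)
        (by simpa using g1.1) hy), one_mul, one_mul]
      exact s_pow2 (by simp; omega) ((A.scale hr e2).trans (mul_le_mul_right e3 _))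
  rcases H with H | H
  · have A' := A.flip (Or.inr h7)
    obtain ⟨c1, c2, c3⟩ := H.conv (x₀ := x₀) (iv := iv) X z1 hk
      (I := ((y :: J).reverse ++ K).reverse) (by rw [h1, h3]; simp) (by rwa [h2, h4])
      (t := K.length) (j := K.length + 1) (by rw [h1]) (Or.inr rfl) (by simpa [vx] using h11)
    rw [h2, h4] at c1 c2
    refine ⟨(false, K.length), by simp [τ]; omega, by simpa only [List.mem_reverse] using c3, ?_⟩
    simp only [cond_false, φ]
    rw [ind_of (And.intro c1 (by simp)), one_mul, wF, wt_one c1.2.2.2.1 (by simp [sawNm]),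
      List.length_reverse]
    exact le_mul_of_one_le_left' c2
  · obtain ⟨c1, c2, c3⟩ := H.conv (x₀ := x₀) (iv := iv) X z1 hk
      (I := (y :: J).reverse ++ K) (by rw [h1, h3]) (by rwa [h2, h4])
      (t := J.length + 1) (j := J.length + 1) (by rw [h3]; rfl) (Or.inl rfl)
      (by simpa [vx] using h11)
    rw [h2, h4] at c1 c2
    refine ⟨(true, J.length + 1), rfl, c3, ?_⟩
    simp only [cond_true, φ]
    rw [ind_of (And.intro c1 (by simp)), one_mul, wF, wt_one c1.2.2.2.1 (by simp [sawNm])]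
    exact le_mul_of_one_le_left' c2

omit hr hG in
theorem s_cv_hm (g : G.SSt o N γ y) (H : G.SBad G.Tb c4 k o N z γ y) : G.Hm o N (G.cv z) := by
  have h3 := gap_ge X.h7 hk
  have z1 : 1 ≤ z.1 := by have := s_lev X hz; omega
  suffices ∃ v ∈ γ, z.1 < v.1 by
    obtain ⟨v, h1, h2⟩ := this
    have h4 : v.1 ≤ o.1 + N := by
      rcases g.1.dom v h1 with e | rfl
      · exact e.2
      · rw [nb_zero]; simp only; omega
    have h5 := (s_cv h3).1
    have h6 := G.adj_iff.1 (s_cv h3).2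
    exact ⟨cone_child hz.1 h5 (by unfold Ch; omega), by omega⟩
  rcases H.2.2.2 with ⟨B, st, rfl, -⟩ | ⟨x, f, h1, h2, H⟩ | H'
  · exact ⟨G.cv z, by simp [cv, c4], by rw [(s_cv h3).1]; omega⟩
  · obtain ⟨w, -, -, -, -, A⟩ := g.arc X hz (H.imp And.left And.left) (by rintro e; simp [e] at h1)
    rw [← hd_rev (z := z) h2, ← last_rev (z := z) h1] at H
    rcases H with ⟨rfl, -, H⟩ | ⟨-, -, H⟩
    · exact (A.deepZ X.tube X.h7 hk z1 H).imp fun v e => ⟨itr_sub (List.mem_reverse.1 e.1), e.2⟩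
    · exact (A.deep X.tube h3 H).imp fun v e => ⟨itr_sub (List.mem_reverse.1 e.1), e.2⟩
  · obtain ⟨K, e, m, J, b, w, rfl, h1, h2, h3, h4, h5, h6, h7, h8, h9, h10, h11, A, H⟩ :=
      H'.shape X hz H.2.2.1 g
    rcases H with H | H
    · exact (H.conv (x₀ := 0) (iv := 0) X z1 hk (I := ((y :: J).reverse ++ K).reverse)
        (by rw [h1, h3]; simp) (by rw [h2, h4]; exact A.flip (Or.inr h7)) (j := K.length + 1) rfl
        (Or.inr (by rw [h1])) (by simpa [vx] using h11)).2.2.imp fun v e =>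
          ⟨by have := e.1; simp at this ⊢; tauto, e.2⟩
    · exact (H.conv (x₀ := 0) (iv := 0) X z1 hk (I := (y :: J).reverse ++ K) (by rw [h1, h3])
        (by rwa [h2, h4]) (j := J.length + 1) rfl (Or.inl (by rw [h3]; rfl))
        (by simpa [vx] using h11)).2.2.imp fun v e => ⟨by have := e.1; simp at this ⊢; tauto, e.2⟩

theorem ld_U (hc : G.Hm o N (G.cv z)) : r * x₀ * G.SY o N (r * x₀) z ≤ G.SUn c4 o N (r * x₀) z +
    r * x₀ * h * G.SC o N (r * x₀) r z (G.fL (sawNm x₀ iv) z) := by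
  refine le_trans ?_ (add_le_add le_rfl (ld_L X hr hG hz hk))
  have h3 := (s_cv (gap_ge X.h7 hk)).2
  calc _ ≤ ∑' w, (r * x₀ * (ind (G.SWk o N (z :: w) ∧ G.cv z ∉ w) * (r * x₀) ^ (w.length - 1)) +
        r * x₀ * (ind (G.SWk o N (z :: w) ∧ G.cv z ∈ w) * (r * x₀) ^ (w.length - 1))) := by
        rw [SY, ← ENNReal.tsum_mul_left]
        refine ENNReal.tsum_le_tsum fun w => ?_
        rw [← mul_add]
        refine mul_le_mul_right (ind_mul_le fun g => ?_) _
        by_cases e : G.cv z ∈ w <;> rw [ind_of (And.intro g e), one_mul]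
        exacts [le_add_self, le_self_add]
    _ ≤ _ := by
        rw [ENNReal.tsum_add]
        refine add_le_add (tsum_le_of_enc _ _ (G.cv z :: z :: ·) (fun _ _ _ _ e => by simpa using e)
          fun w g => ?_) le_rfl
        obtain ⟨g1, g2⟩ := of_ind_mul_ne (right_ne_zero_of_mul g)
        have := g1.pos
        rw [ind_of (And.intro g1 g2), ind_of (A := _ ∧ ∃ st, G.cv z :: z :: w = G.nb z (c4 z) :: z :: st)
          ⟨g1.cons hc h3.symm (by simp [g2, h3.ne.symm]), w, rfl⟩, one_mul, one_mul, ← pow_succ']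
        exact le_of_eq (congrArg _ (by simp; omega))

theorem s_load (h0 : r * x₀ ≠ 0) (h1 : x₀ ≠ ⊤) (hiv : max x₀⁻¹ h ≤ iv) {K : ℝ≥0∞}
    (hK : G.freeS (sawNm x₀ iv) h z + K ≤ 1) (hC : ∀ s, G.chgS k (sawNm x₀ iv) h z s ≤ K * x₀) :
    G.SLd G.Tb c4 k o N (r * x₀) z ≤ G.SUn c4 o N (r * x₀) z := by
  by_cases hc : G.Hm o N (G.cv z)
  swap
  · rw [SLd, ENNReal.tsum_eq_zero.2 fun s => by
      rw [ind_of_not fun g => hc (s_cv_hm X hz hk g.1 g.2), zero_mul]]
    exact zero_le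
  have hx : r * x₀ ≠ ⊤ := ENNReal.mul_ne_top (ne_top_of_le_ne_top ENNReal.one_ne_top hr) h1
  have hY : G.SY o N (r * x₀) z ≠ ⊤ := ne_top_of_le_ne_top (wk_ne_top (G := G) (o := o) (N := N)
    (f := fun γ => ind (G.SWk o N γ) * (r * x₀) ^ (γ.length - 2)) (fun _ => of_ind_mul_ne) fun γ =>
    ENNReal.mul_ne_top (ne_top_of_le_ne_top ENNReal.one_ne_top (ind_le_one _))
      (ENNReal.pow_ne_top hx)) (tsum_le_of_enc _ _ (z :: ·) (fun _ _ _ _ e => by simpa using e)
      fun w _ => le_rfl)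
  have l1 : G.SLd G.Tb c4 k o N (r * x₀) z ≤ _ :=
    (sw_split fun γ y _ g => ?_).trans (add_le_add (ld_S (iv := iv) X hr hz hk)
    ((sw_split fun γ y _ g => g).trans (add_le_add (ld_X (iv := iv) X hr hG hz hk)
    ((sw_split fun γ y _ g => g).trans (add_le_add (ld_Z (iv := iv) X hr hz hk)
    ((sw_split fun γ y _ g => g).trans (add_le_add (ld_ZW (iv := iv) X hr hz)
    ((sw_split fun γ y _ g => g).trans (add_le_add (ld_WW (iv := iv) X hr hG hz hk)
      (ld_F (iv := iv) X hr hG hz hk))))))))))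
  swap
  · rcases g.2.2.2 with ⟨B, st, e, g1, g2 | g2⟩ | ⟨x, f, g1, g2, g3 | g3⟩ | g1
    · exact Or.inl ⟨B, st, e, g1, g2⟩
    · exact Or.inr (Or.inl ⟨g.2.2.1, B, st, e, g1, g2⟩)
    · exact Or.inr (Or.inr (Or.inl ⟨g3.1, g3.2.1, x, f, g1, g2, g3.2.2⟩))
    · by_cases e : bas G.Tb z γ = z
      · exact Or.inr (Or.inr (Or.inr (Or.inl ⟨g3.1, e, x, f, g1, g2, fun e' => g3.2.1 ⟨e, e'⟩,
          g3.2.2⟩)))
      · exact Or.inr (Or.inr (Or.inr (Or.inr (Or.inl ⟨g3.1, e, x, f, g1, g2, g3.2.2⟩))))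
    · exact Or.inr (Or.inr (Or.inr (Or.inr (Or.inr ⟨g.2.2.1, g1⟩))))
  have sc := fun {F} => sc_le (F := F) X h0 h1 hr hG hiv hz
  have ex : ∀ {ι : Type} {f : ι → ℝ≥0∞}, ∑' i, f i ≠ 0 → ∃ i, f i ≠ 0 := fun g => by
    simpa using g
  have c1 := sc (F := G.fL (sawNm x₀ iv) z) fun b I g => ⟨_, of_ind_mul_ne g⟩
  have c2 := sc (F := G.fX (sawNm x₀ iv) false z) fun b I g =>
    ⟨_, (ex g).elim fun t g => (of_ind_mul_ne g).1⟩
  have c3 := sc (F := G.fSz k (sawNm x₀ iv) z) fun b I g => ⟨_, (of_ind_mul_ne g).1⟩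
  have c4' := sc (F := G.fWS (sawNm x₀ iv) z) fun b I g =>
    (ex g).imp fun e g => (of_ind_mul_ne g).2.1
  have c5 := sc (F := G.fFS k (sawNm x₀ iv) z) fun b I g => (ex g).imp fun e g => by
    by_contra A
    refine right_ne_zero_of_mul g (add_eq_zero.2 ⟨?_, ?_⟩) <;>
      refine ENNReal.tsum_eq_zero.2 fun t => ?_ <;> rw [ind_of_not fun g' => A ?_, zero_mul]
    · exact g'.1.1
    · simpa using g'.1.1.flip (of_ind_mul_ne g).1
  have l2 := ld_U (iv := iv) X hr hG hz hk hc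
  have l3 : r * ∑ s, G.SZ o N (r * x₀) z (G.yv z s) * G.chgS k (sawNm x₀ iv) h z s ≤
      K * G.SY o N (r * x₀) z := by
    refine le_trans ?_ (mul_le_mul_right (sz_spoke hz (by have := s_lev X hz; omega)) K)
    refine (mul_le_mul_right (Finset.sum_le_sum fun s _ => mul_le_mul_right (hC s) _) r).trans
      (le_of_eq ?_)
    rw [← Finset.sum_mul]
    ring
  have l4 := (add_le_add (add_le_add (mul_le_mul_right (add_le_add (add_le_add c1 c2) c5) h) c3)
    c4').trans (le_trans (le_of_eq (by simp only [chgS, Fintype.sum_bool]; ring)) l3)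
  have l5 : K * G.SY o N (r * x₀) z ≠ ⊤ := ENNReal.mul_ne_top
    (ne_top_of_le_ne_top ENNReal.one_ne_top (le_add_self.trans hK)) hY
  refine (ENNReal.add_le_add_iff_right (a := r * x₀ * h * G.SC o N (r * x₀) r z
    (G.fL (sawNm x₀ iv) z)) ?_).1 (le_trans ?_ l2)
  · rw [mul_assoc _ h]
    refine ENNReal.mul_ne_top hx (ne_top_of_le_ne_top l5 (le_trans ?_ l4))
    exact le_add_right (le_add_right (mul_le_mul_right (le_add_right le_self_add) h))
  · refine (add_le_add l1 le_rfl).trans (le_trans ?_ (mul_le_mul_right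
      ((add_le_add le_rfl l4).trans ((add_mul _ _ _).ge.trans (mul_le_of_le_one_left' hK))) _))
    exact le_of_eq (by rw [freeS]; ring)

end
end Grid
end Pool.Agent.P.MP_e4ac67_pr.Gr
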