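import Pool.Agent.P.MP_e4ac67_pr.S.Proc

/-! The master inequality for self-avoiding walks. -/

open scoped ENNReal

namespace Pool.Agent.P.MP_e4ac67_pr.Gr
open PlaneTri
namespace Grid
variable {G : Grid} {W : Pt → Pt → Prop} {c : Pt → ℕ} {k : ℕ} {o : Pt} {N : ℕ} {x : ℝ≥0∞}

theorem s_hm_fin : {v | G.Hm o N v}.Finite := by
  refine ((Set.finite_Iic N).biUnion fun i _ => (Set.finite_Icc (G.lr o i) (G.rr o i)).image
    fun x => ((o.1 + i, x) : Pt)).subset fun v hv => ?_
  obtain ⟨i, x, rfl⟩ := cone_ex hv.1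
  have := cone_iff.1 hv.1
  have := hv.2
  exact Set.mem_biUnion (x := i) (by simp at *; omega) ⟨x, by simp at *; omega, rfl⟩

theorem wk_finite : {γ | G.SWk o N γ}.Finite := by
  have := ((s_hm_fin (G := G) (o := o) (N := N)).insert (G.nb o 0)).fintype
  refine (Set.finite_range fun l : {l : List (insert (G.nb o 0) {v | G.Hm o N v} : Set Pt) //
    l.Nodup} => l.1.map Subtype.val).subset fun γ h => ?_
  have e := List.attachWith_map_subtype_val (l := γ)
    (p := fun v => v ∈ (insert (G.nb o 0) {v | G.Hm o N v} : Set Pt)) fun v hv => (h.dom v hv).symm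
  exact ⟨⟨_, List.Nodup.of_map _ (e ▸ h.nd)⟩, e⟩

theorem wk_ne_top {f : List Pt → ℝ≥0∞} (h : ∀ γ, f γ ≠ 0 → G.SWk o N γ) (h' : ∀ γ, f γ ≠ ⊤) :
    ∑' γ, f γ ≠ ⊤ := by
  rw [tsum_eq_sum (s := (wk_finite (G := G) (o := o) (N := N)).toFinset) fun γ e => by
    by_contra e'; exact e (by simpa using h γ e')]
  exact ENNReal.sum_ne_top.2 fun γ _ => h' γ

variable (G o N) in
/-- a walk and one more step which is not a step back -/
def SSt (γ : List Pt) (y : Pt) : Prop :=
  G.SWk o N γ ∧ (y :: γ).IsChain G.Adj ∧ γ.tail.head? ≠ some y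

variable {V V' : Type} {T : PlaneTri V} {T' : PlaneTri V'}

theorem s_master (X : G.SCx W c k o) (E : Emb G T) (hk : ∀ v, k ≤ T.deg v) (hT' : ∀ v, T'.deg v = k)
    (hx : x ≠ ⊤) {d : V'}
    (hunb : ∀ C : ℝ≥0∞, C ≠ ⊤ → ∃ M, C < (sawCount T'.G d M : ℝ≥0∞) * x ^ M) :
    ∑' l, ind (G.SLa c k o N l) * x ^ (l.length - 2) ≤ ∑' s : List Pt × Pt,
      ind (G.SSt o N s.1 s.2 ∧ (¬G.Hm o N s.2 ∨ ∃ z, G.SBad W c k o N z s.1 s.2)) *
        x ^ (s.1.length - 1) := by
  obtain ⟨n, hn⟩ := ((wk_finite (G := G) (o := o) (N := N)).image List.length).bddAbove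
  obtain ⟨x₀, t₀, h0, H⟩ := vl_prime hT' hx hunb n
  calc _ ≤ ∑' s : List Pt × ℕ × List ℕ, ind (G.SLa c k o N s.1) * x ^ (s.1.length - 2) *
        (ind (T'.Vl d k x₀ t₀ (s.2.1 :: s.2.2) ∧ G.SAl W c k o N (s.1.tail.headD o) s.1 s.2.2 ∧
          ¬G.SAl W c k o N (s.1.tail.headD o) s.1 (s.2.1 :: s.2.2)) * x ^ (s.2.2.length + 1)) := by
        rw [ENNReal.tsum_prod']
        refine ENNReal.tsum_le_tsum fun l => ind_mul_le fun hl => ?_
        simp only [ENNReal.tsum_mul_left]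
        rw [ind_of hl, one_mul]
        refine le_mul_of_one_le_right' (H _ trivial fun u hu => ?_)
        have := hn ⟨_, hu.wk X hl.1, rfl⟩
        have := hl.1.two
        rw [grow_length] at *
        omega
    _ ≤ _ := by
        refine tsum_le_of_enc _ _ (fun s => (grow (G.srx W c k) s.1 s.2.2,
          G.srx W c k (grow (G.srx W c k) s.1 s.2.2) s.2.1)) ?_ ?_
        · rintro ⟨l, a, u⟩ ⟨l', a', u'⟩ h h' e
          have h1 := of_ind_mul_ne (left_ne_zero_of_mul h)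
          have h2 := of_ind_mul_ne (right_ne_zero_of_mul h)
          have h3 := of_ind_mul_ne (left_ne_zero_of_mul h')
          have h4 := of_ind_mul_ne (right_ne_zero_of_mul h')
          obtain ⟨e1, e2⟩ := Prod.mk.inj e
          obtain ⟨rfl, rfl⟩ := s_decode X h1 h3 h2.2.1 h4.2.1 e1
          rw [rx_inj X (h2.2.1.wk X h1.1) (h2.1.1 a (by simp)) (h4.1.1 a' (by simp)) e2]
        · rintro ⟨l, a, u⟩ h
          have h1 := of_ind_mul_ne (left_ne_zero_of_mul h)
          have h2 := of_ind_mul_ne (right_ne_zero_of_mul h)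
          simp only at h1 h2 ⊢
          have wk := h2.2.1.wk X h1.1
          have ha := h2.1.1 a (by simp)
          have h3 : G.SSt o N (grow (G.srx W c k) l u) (G.srx W c k (grow (G.srx W c k) l u) a) := by
            obtain ⟨z, t, w, e, -, e1, e2⟩ := wk.shape X
            have := s_hdr (w := w) X e1 e2 ha.1 ha.2
            rw [e] at wk ⊢
            exact ⟨wk, List.isChain_cons_cons.2 ⟨this.1.symm, wk.ch⟩,
              fun e' => this.2.1 (Option.some.inj e').symm⟩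
          have := h1.1.two
          obtain ⟨top, t, st, rfl, -⟩ := h1.1.shape X
          rw [ind_of h1, ind_of h2, one_mul, one_mul, ← pow_add,
            ind_of (And.intro h3 (s_stop X E hk hT' h1 h2.2.1 h0 h2.1 h2.2.2 rfl rfl)), one_mul,
            grow_length]
          exact le_of_eq (congrArg _ (by omega))

variable (G c k o N x) in
/-- the weight of the launches at `z` -/
noncomputable def SUn (z : Pt) : ℝ≥0∞ := ∑' l : List Pt,
  ind (G.SWk o N l ∧ ∃ st, l = G.nb z (c z) :: z :: st) * x ^ (l.length - 2)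

variable (G W c k o N x) in
/-- the load of `z` -/
noncomputable def SLd (z : Pt) : ℝ≥0∞ := ∑' s : List Pt × Pt,
  ind (G.SSt o N s.1 s.2 ∧ G.SBad W c k o N z s.1 s.2) * x ^ (s.1.length - 1)

variable (G o N x) in
/-- the exits -/
noncomputable def SEx : ℝ≥0∞ := ∑' s : List Pt × Pt,
  ind (G.SSt o N s.1 s.2 ∧ ¬G.Hm o N s.2) * x ^ (s.1.length - 1)

theorem s_root_wk (X : G.SCx W c k o) : G.SWk o N [o, G.nb o 0] := by
  have := X.lev
  have h := adj_nb (G := G) (v := o) (by omega) (j := 0) (by have := G.seven_le o; omega)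
  exact ⟨List.suffix_rfl, by simp [Hm, Cn, lr, rr], by simpa using h,
    by simpa using h.ne⟩

theorem one_le_ex (X : G.SCx W c k o) (E : Emb G T) (hk : ∀ v, k ≤ T.deg v)
    (hT' : ∀ v, T'.deg v = k) (hx : x ≠ ⊤) {d : V'}
    (hunb : ∀ C : ℝ≥0∞, C ≠ ⊤ → ∃ M, C < (sawCount T'.G d M : ℝ≥0∞) * x ^ M)
    (hL : ∀ z, G.Hm o N z → k < G.dg z → G.SLd W c k o N x z ≤ G.SUn c o N x z) :
    1 ≤ G.SEx o N x := by
  classical
  set U := ∑' z, ind (G.Hm o N z ∧ k < G.dg z) * G.SUn c o N x z with hU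
  have h1 : 1 + U ≤ ∑' l, ind (G.SLa c k o N l) * x ^ (l.length - 2) := by
    rw [ENNReal.tsum_eq_add_tsum_ite [o, G.nb o 0], ind_of ⟨s_root_wk X, Or.inl rfl⟩, one_mul]
    refine add_le_add (by simp) ?_
    simp only [hU, SUn, ← ENNReal.tsum_mul_left]
    rw [← ENNReal.tsum_prod]
    refine tsum_le_of_enc _ _ Prod.snd ?_ ?_
    · rintro ⟨z, l⟩ ⟨z', l'⟩ h h' (rfl : l = l')
      obtain ⟨-, st, e⟩ := of_ind_mul_ne (right_ne_zero_of_mul h)
      obtain ⟨-, st', e'⟩ := of_ind_mul_ne (right_ne_zero_of_mul h')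
      simp only at e e'
      rw [(List.cons.inj (List.cons.inj (e.symm.trans e')).2).1]
    · rintro ⟨z, l⟩ h
      have h2 := of_ind_mul_ne h
      obtain ⟨h3, st, e⟩ := of_ind_mul_ne (right_ne_zero_of_mul h)
      simp only at h2 h3 e ⊢
      rw [if_neg fun e' => s_root X
        ((List.cons.inj (List.cons.inj (e.symm.trans e')).2).1 ▸ h2.1), ind_of h2, one_mul]
      exact mul_le_mul_left (ind_mono fun _ => ⟨h3, Or.inr ⟨z, st, e, h2⟩⟩) _
  have h2 := h1.trans (s_master X E hk hT' hx hunb)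
  have h3 : U ≠ ⊤ := ne_top_of_le_ne_top (wk_ne_top (fun γ h => (of_ind_mul_ne h).1) fun γ =>
    ENNReal.mul_ne_top (ne_top_of_le_ne_top ENNReal.one_ne_top (ind_le_one _))
      (ENNReal.pow_ne_top hx)) (le_add_self.trans h1)
  refine (ENNReal.add_le_add_iff_right h3).1 (h2.trans ?_)
  calc _ ≤ ∑' s : List Pt × Pt, (ind (G.SSt o N s.1 s.2 ∧ ¬G.Hm o N s.2) * x ^ (s.1.length - 1) +
        ∑' z, ind (G.SSt o N s.1 s.2 ∧ G.SBad W c k o N z s.1 s.2) * x ^ (s.1.length - 1)) := by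
        refine ENNReal.tsum_le_tsum fun s => ind_mul_le ?_
        rintro ⟨g1, g2 | ⟨z, g2⟩⟩
        · rw [ind_of ⟨g1, g2⟩, one_mul]; exact le_self_add
        · refine le_add_left (le_trans ?_ (ENNReal.le_tsum z))
          rw [ind_of ⟨g1, g2⟩, one_mul]
    _ ≤ _ := by
        rw [ENNReal.tsum_add, ENNReal.tsum_comm]
        refine add_le_add le_rfl (ENNReal.tsum_le_tsum fun z => ?_)
        by_cases e : G.Hm o N z ∧ k < G.dg z
        · rw [ind_of e, one_mul]; exact hL z e.1 e.2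
        · rw [ENNReal.tsum_eq_zero.2 fun s => by
            rw [ind_of_not fun g => e ⟨g.2.1, g.2.2.1⟩, zero_mul]]
          exact zero_le

end Grid
end Pool.Agent.P.MP_e4ac67_pr.Gr
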