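import Pool.Agent.P.MP_e4ac67_pr.Saw

/-! Self-avoiding walks of the regular triangulation read as words, stopped at the first failure. -/

open scoped ENNReal

namespace Pool.Agent.P.MP_e4ac67_pr

theorem ch_ifx {α : Type} {R : α → α → Prop} {l m : List α} (h : l.IsChain R) (e : m <:+: l) :
    m.IsChain R := by
  obtain ⟨a, b, rfl⟩ := e
  exact h.left_of_append.right_of_append

theorem ch_pfx {α : Type} {R : α → α → Prop} {l m : List α} (h : l.IsChain R) (e : m <+: l) :
    m.IsChain R := ch_ifx h e.isInfix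

/-- a list grown letter by letter, the head is the newest entry -/
def grow {α : Type} (f : List α → ℕ → α) (m : List α) : List ℕ → List α
  | [] => m
  | a :: u => f (grow f m u) a :: grow f m u

section
variable {α : Type} {f : List α → ℕ → α} {m : List α}

theorem grow_append (u v : List ℕ) : grow f m (u ++ v) = grow f (grow f m v) u := by
  induction u with
  | nil => rfl
  | cons a u ih => simp only [List.cons_append, grow, ih]

theorem grow_length (u : List ℕ) : (grow f m u).length = u.length + m.length := by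
  induction u with
  | nil => simp [grow]
  | cons a u ih => simp only [grow, List.length_cons, ih]; omega

theorem grow_suffix (u : List ℕ) : m <:+ grow f m u := by
  induction u with
  | nil => exact List.suffix_rfl
  | cons a u ih => exact ih.trans (List.suffix_cons _ _)

theorem grow_two (x t : α) (s : List α) (u : List ℕ) :
    ∃ x' t' s', grow f (x :: t :: s) u = x' :: t' :: s' := by
  induction u with
  | nil => exact ⟨_, _, _, rfl⟩
  | cons a u ih =>
    obtain ⟨x', t', s', e⟩ := ih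
    exact ⟨_, x', t' :: s', by rw [grow, e]⟩

theorem exists_stop {A : List ℕ → Prop} (h0 : A []) {w : List ℕ} (h : ¬A w) :
    ∃ v a u, w = v ++ a :: u ∧ A u ∧ ¬A (a :: u) := by
  induction w with
  | nil => exact absurd h0 h
  | cons a w ih =>
    by_cases e : A w
    · exact ⟨[], a, w, rfl, e, h⟩
    · obtain ⟨v, b, u, rfl, h1⟩ := ih e
      exact ⟨a :: v, b, u, rfl, h1⟩

theorem fin_words (k M : ℕ) : {u : List ℕ | u.length = M ∧ ∀ a ∈ u, a < k}.Finite := by
  induction M with
  | zero => exact (Set.finite_singleton []).subset fun u h => List.length_eq_zero_iff.1 h.1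
  | succ M ih =>
    refine ((Set.finite_Iio k).image2 List.cons ih).subset ?_
    rintro (_ | ⟨a, u⟩) ⟨h1, h2⟩
    · simp at h1
    · exact ⟨a, h2 a (by simp), u, ⟨by simpa using h1, fun b hb => h2 b (by simp [hb])⟩, rfl⟩

end

namespace PlaneTri
variable {V : Type} (T : PlaneTri V) (d : V) (k : ℕ)

/-- the vertex read by a letter -/
def mx : List V → ℕ → V
  | x :: t :: _, a => T.rot x t a
  | _, _ => d

/-- the word reads a self-avoiding walk from the dart `(t, x)` -/
def Vl (x t : V) (u : List ℕ) : Prop :=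
  (∀ a ∈ u, 1 ≤ a ∧ a < k) ∧ (grow (T.mx d) [x, t] u).Nodup

noncomputable def vSup (M : ℕ) : ℕ∞ :=
  ⨆ δ : {δ : V × V // T.G.Adj δ.1 δ.2}, {u | u.length = M ∧ T.Vl d k δ.1.1 δ.1.2 u}.encard

variable {T d k}

theorem mx_local (x t : V) (s : List V) (u : List ℕ) :
    grow (T.mx d) (x :: t :: s) u = grow (T.mx d) [x, t] u ++ s := by
  induction u with
  | nil => rfl
  | cons a u ih =>
    obtain ⟨x', t', s', e⟩ := grow_two (f := T.mx d) x t [] u
    simp only [grow, ih, e, List.cons_append, mx]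

theorem mx_chain {x t : V} (h : T.G.Adj x t) (u : List ℕ) :
    (grow (T.mx d) [x, t] u).IsChain T.G.Adj := by
  induction u with
  | nil => simpa [grow] using h
  | cons a u ih =>
    obtain ⟨x', t', s', e⟩ := grow_two (f := T.mx d) x t [] u
    rw [grow]
    rw [e] at ih ⊢
    exact List.isChain_cons_cons.2 ⟨(adj_rot (List.isChain_cons_cons.1 ih).1 a).symm, ih⟩

theorem exists_word (hT : ∀ v, T.deg v = k) {x t : V} (m : List V)
    (h : (m ++ [x, t]).IsChain T.G.Adj) (h' : (m ++ [x, t]).Nodup) :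
    ∃ u, u.length = m.length ∧ T.Vl d k x t u ∧ grow (T.mx d) [x, t] u = m ++ [x, t] := by
  induction m with
  | nil => exact ⟨[], rfl, ⟨by simp, h'⟩, rfl⟩
  | cons y m ih =>
    obtain ⟨u, h1, h2, h3⟩ := ih h.tail h'.of_cons
    obtain ⟨x', t', s', e⟩ := grow_two (f := T.mx d) x t [] u
    rw [List.cons_append, ← h3, e] at h h'
    obtain ⟨a, h4, rfl⟩ := rot_surj (List.isChain_cons_cons.1 h.tail).1
      (List.isChain_cons_cons.1 h).1.symm
    have h5 : grow (T.mx d) [x, t] (a :: u) = T.rot x' t' a :: x' :: t' :: s' := by rw [grow, e, mx]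
    refine ⟨a :: u, by simp [h1], ⟨List.forall_mem_cons.2 ⟨⟨?_, hT x' ▸ h4⟩, h2.1⟩, h5 ▸ h'⟩,
      by rw [h5, List.cons_append, ← h3, e]⟩
    by_contra e0
    obtain rfl : a = 0 := by omega
    simp at h'

theorem vSup_lt (M : ℕ) : T.vSup d k M < ⊤ :=
  lt_of_le_of_lt (iSup_le fun _ => Set.encard_le_encard fun _ h =>
    And.intro h.1 fun a ha => (h.2.1 a ha).2) (fin_words k M).encard_lt_top

theorem le_vSup {x t : V} (h : T.G.Adj x t) (M : ℕ) :
    ∑' u : List ℕ, ind (u.length = M ∧ T.Vl d k x t u) ≤ T.vSup d k M :=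
  (tsum_ind_mem {u : List ℕ | u.length = M ∧ T.Vl d k x t u}).le.trans (ENat.toENNReal_le.2 (le_iSup
    (fun δ : {δ : V × V // T.G.Adj δ.1 δ.2} =>
      {u : List ℕ | u.length = M ∧ T.Vl d k δ.1.1 δ.1.2 u}.encard) ⟨(x, t), h⟩))

theorem count_le (hT : ∀ v, T.deg v = k) (v : V) (M : ℕ) :
    (sawCount T.G v (M + 1) : ℝ≥0∞) ≤ (∑' w, ind (w ∈ T.G.neighborSet v)) * T.vSup d k M := by
  rw [sawCount, ← tsum_ind_mem, ← ENNReal.tsum_mul_right]
  calc _ ≤ ∑' y : V × List ℕ, ind (y.1 ∈ T.G.neighborSet v) *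
        ind (y.2.length = M ∧ T.Vl d k y.1 v y.2) := by
        refine tsum_le_of_dec _ _ (fun y => (grow (T.mx d) [y.1, v] y.2).reverse) fun l hl => ?_
        obtain ⟨h1, h2, h3, h4⟩ := of_ind_mul_ne ((mul_one (ind _)).symm ▸ hl)
        obtain _ | ⟨a, _ | ⟨w, l⟩⟩ := l
        · simp at h1
        · simp at h1
        obtain rfl : a = v := by simpa using h2
        have e : l.reverse ++ [w, a] = (a :: w :: l).reverse := by simp
        obtain ⟨u, g1, g2, g3⟩ := exists_word (d := d) hT (x := w) (t := a) l.reverse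
          (e ▸ List.isChain_reverse.2 (h3.imp fun _ _ h => h.symm)) (e ▸ List.nodup_reverse.2 h4)
        refine ⟨(w, u), by simp only [g3, e, List.reverse_reverse], ?_⟩
        rw [ind_of (A := w ∈ _) (List.isChain_cons_cons.1 h3).1,
          ind_of (A := u.length = M ∧ _) ⟨by simp at h1 g1; omega, g2⟩, mul_one]
        exact ind_le_one _
    _ ≤ _ := by
        rw [ENNReal.tsum_prod']
        refine ENNReal.tsum_le_tsum fun w => ?_
        simp only [ENNReal.tsum_mul_left]
        exact ind_mul_le fun h => by rw [ind_of h, one_mul]; exact le_vSup h.symm M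

theorem vl_decomp {x t : V} (h : T.G.Adj x t) {A : List ℕ → Prop} (h0 : A []) {M : ℕ}
    (hA : ∀ u, A u → u.length < M) :
    ∑' u : List ℕ, ind (u.length = M ∧ T.Vl d k x t u) ≤ ∑' y : ℕ × List ℕ,
      ind (T.Vl d k x t (y.1 :: y.2) ∧ A y.2 ∧ ¬A (y.1 :: y.2)) *
        T.vSup d k (M - (y.2.length + 1)) := by
  calc _ ≤ ∑' y : (ℕ × List ℕ) × List ℕ, ind (T.Vl d k x t (y.1.1 :: y.1.2) ∧ A y.1.2 ∧
        ¬A (y.1.1 :: y.1.2)) * ind (y.2.length = M - (y.1.2.length + 1) ∧ ∀ x' t' s,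
          grow (T.mx d) [x, t] (y.1.1 :: y.1.2) = x' :: t' :: s → T.Vl d k x' t' y.2) := by
        refine tsum_le_of_dec _ _ (fun y => y.2 ++ y.1.1 :: y.1.2) fun w hw => ?_
        obtain ⟨h1, h2, h3⟩ := of_ind_mul_ne ((mul_one (ind _)).symm ▸ hw)
        obtain ⟨v, a, u, rfl, h4⟩ := exists_stop h0 (w := w) fun e => (hA w e).ne h1
        rw [grow_append] at h3
        refine ⟨((a, u), v), rfl, ?_⟩
        rw [ind_of (A := T.Vl d k x t _ ∧ _) ⟨⟨fun b hb => h2 b (List.mem_append_right _ hb),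
          h3.sublist (grow_suffix v).sublist⟩, h4⟩, ind_of (A := v.length = _ ∧ _)
          ⟨by simp at h1 ⊢; omega, fun x' t' s e => ⟨fun b hb => h2 b (List.mem_append_left _ hb),
            by rw [e, mx_local] at h3; exact h3.of_append_left⟩⟩, mul_one]
        exact ind_le_one _
    _ ≤ _ := by
        rw [ENNReal.tsum_prod']
        refine ENNReal.tsum_le_tsum fun y => ?_
        simp only [ENNReal.tsum_mul_left]
        refine mul_le_mul_right ?_ _
        obtain ⟨x', t', s, e⟩ := grow_two (f := T.mx d) x t [] (y.1 :: y.2)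
        have := mx_chain (d := d) h (y.1 :: y.2)
        rw [e] at this
        exact le_trans (ENNReal.tsum_le_tsum fun v => ind_mono fun g => ⟨g.1, g.2 _ _ _ e⟩)
          (le_vSup (List.isChain_cons_cons.1 this).1 _)

/-- the stopped words have total weight at least one -/
theorem vl_prime (hT : ∀ v, T.deg v = k) {p : ℝ≥0∞} (hp : p ≠ ⊤)
    (hunb : ∀ C : ℝ≥0∞, C ≠ ⊤ → ∃ M, C < (sawCount T.G d M : ℝ≥0∞) * p ^ M) (n : ℕ) :
    ∃ x t, T.G.Adj x t ∧ ∀ A : List ℕ → Prop, A [] → (∀ u, A u → u.length < n) →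
      1 ≤ ∑' y : ℕ × List ℕ, ind (T.Vl d k x t (y.1 :: y.2) ∧ A y.2 ∧ ¬A (y.1 :: y.2)) *
        p ^ (y.2.length + 1) := by
  have hfin : ∀ j, (T.vSup d k j : ℝ≥0∞) * p ^ j ≠ ⊤ := fun j =>
    ENNReal.mul_ne_top (ENat.toENNReal_ne_top.2 (vSup_lt j).ne) (ENNReal.pow_ne_top hp)
  have hK : (∑' w, ind (w ∈ T.G.neighborSet d)) ≠ ⊤ := by
    rw [tsum_ind_mem]
    exact ENat.toENNReal_ne_top.2 (T.locFin d).encard_lt_top.ne
  obtain ⟨M, hM, h0, hmax⟩ := saw_exists_max (fun j => (T.vSup d k j : ℝ≥0∞) * p ^ j) hfin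
    (fun C hC => by
      obtain ⟨M, hM⟩ := hunb (1 + (∑' w, ind (w ∈ T.G.neighborSet d)) * p * C)
        (by finiteness)
      obtain _ | M := M
      · refine absurd (le_self_add.trans_lt hM) (not_lt.2 ?_)
        rw [pow_zero, mul_one, ← ENat.toENNReal_one, ENat.toENNReal_le, sawCount,
          Set.encard_le_one_iff_subsingleton]
        rintro l ⟨h1, h2, -⟩ l' ⟨h3, h4, -⟩
        obtain ⟨a, rfl⟩ := List.length_eq_one_iff.1 h1
        obtain ⟨b, rfl⟩ := List.length_eq_one_iff.1 h3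
        simp_all
      · refine ⟨M, lt_of_mul_lt_mul_left' (le_add_self.trans_lt (hM.trans_le ?_))⟩
        exact (mul_le_mul_left (count_le hT d M) _).trans (le_of_eq (by ring))) n
  have : Nonempty {δ : V × V // T.G.Adj δ.1 δ.2} := by
    by_contra e
    rw [not_nonempty_iff] at e
    simp [vSup] at h0
  obtain ⟨δ, hδ⟩ := ENat.exists_eq_iSup_of_lt_top (vSup_lt (T := T) (d := d) (k := k) M)
  refine ⟨δ.1.1, δ.1.2, δ.2, fun A hA0 hA => ?_⟩
  have h1 := mul_le_mul_left (vl_decomp (d := d) (k := k) δ.2 hA0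
    fun u hu => (hA u hu).trans_le hM) (p ^ M)
  rw [show ∑' u : List ℕ, ind (u.length = M ∧ T.Vl d k δ.1.1 δ.1.2 u) = T.vSup d k M from
    (tsum_ind_mem {u : List ℕ | u.length = M ∧ T.Vl d k δ.1.1 δ.1.2 u}).trans (congrArg _ hδ),
    ← ENNReal.tsum_mul_right] at h1
  rw [← ENNReal.mul_le_mul_iff_left h0 (hfin M), one_mul, ← ENNReal.tsum_mul_right]
  refine h1.trans (ENNReal.tsum_le_tsum fun y => ?_)
  rw [mul_assoc, mul_assoc]
  refine ind_mul_le fun hy => ?_
  have := (hA _ hy.2.1).trans_le hM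
  rw [ind_of hy, one_mul]
  calc _ = p ^ (y.2.length + 1) * ((T.vSup d k (M - (y.2.length + 1)) : ℝ≥0∞) *
        p ^ (M - (y.2.length + 1))) := by rw [mul_left_comm, ← pow_add, Nat.add_sub_cancel' this]
    _ ≤ _ := mul_le_mul_right (hmax _ (Nat.sub_le _ _)) _

end PlaneTri
end Pool.Agent.P.MP_e4ac67_pr
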