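import Pool.Agent.P.MP_e4ac67_pr.S.Prime
import Pool.Agent.P.MP_e4ac67_pr.A.Topo

/-! Families of self-avoiding walks read from launches, and the classification of their stops. -/

open scoped ENNReal

namespace Pool.Agent.P.MP_e4ac67_pr.Gr
open PlaneTri

theorem s_exists_map {α β : Type} (d : β) {l : List α} (h : l.Nodup) {m : List β}
    (e : l.length = m.length) : ∃ ψ : α → β, l.map ψ = m := by
  classical
  induction l generalizing m with
  | nil => exact ⟨fun _ => d, (List.length_eq_zero_iff.1 e.symm).symm⟩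
  | cons a l ih =>
    obtain _ | ⟨b, m⟩ := m
    · simp at e
    obtain ⟨ψ, rfl⟩ := ih h.of_cons (m := m) (by simpa using e)
    refine ⟨Function.update ψ a b, ?_⟩
    rw [List.map_cons, Function.update_self, List.map_congr_left fun v hv =>
      Function.update_of_ne (fun e' : v = a => (List.nodup_cons.1 h).1 (e' ▸ hv)) _ _]

theorem grow_new {α : Type} (f : List α → ℕ → α) (m : List α) (u : List ℕ) :
    ∃ B, grow f m u = B ++ m ∧ B.length = u.length := by
  obtain ⟨B, e⟩ := grow_suffix (f := f) (m := m) u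
  have := grow_length (f := f) (m := m) u
  rw [← e, List.length_append] at this
  exact ⟨B, e.symm, by omega⟩

namespace Grid
variable (G : Grid) (W : Pt → Pt → Prop) (c : Pt → ℕ) (k : ℕ) (o : Pt) (N : ℕ)

structure SCx : Prop where
  tube : G.TubeOK W c
  par : ∀ z v, k < G.dg v → 1 ≤ v.1 → Wz W z (G.nb v (c v)) → Wz W z v
  h7 : 7 ≤ k
  deg : ∀ v, 1 ≤ v.1 → k ≤ G.dg v
  lev : 2 ≤ o.1
  cone : G.Cn 0 (0, 0) o

/-- self-avoiding walks from `o` in the real domain, the head is the newest vertex -/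
structure SWk (γ : List Pt) : Prop where
  root : [o, G.nb o 0] <:+ γ
  dom : ∀ v ∈ γ, G.Hm o N v ∨ v = G.nb o 0
  ch : γ.IsChain G.Adj
  nd : γ.Nodup

noncomputable def srx : List Pt → ℕ → Pt
  | z :: w, a => G.hdr W c k z w a
  | [], _ => (0, 0)

/-- launches: the root, and the walks whose last step is a bonus step -/
def SLa (l : List Pt) : Prop := G.SWk o N l ∧ (l = [o, G.nb o 0] ∨
  ∃ z st, l = G.nb z (c z) :: z :: st ∧ G.Hm o N z ∧ k < G.dg z)

/-- the step to `y` is accepted in the family with tail `t` -/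
def SOk (t : Pt) (γ : List Pt) (y : Pt) : Prop :=
  G.Hm o N y ∧ ¬W t y ∧ (∀ z, G.Hm o N z → k < G.dg z → ¬G.Viol W c k z γ y) ∧ y ∉ γ

def SAl (t : Pt) (l : List Pt) : List ℕ → Prop
  | [] => True
  | a :: u => SAl t l u ∧ (1 ≤ a ∧ a < k) ∧
      G.SOk W c k o N t (grow (G.srx W c k) l u) (G.srx W c k (grow (G.srx W c k) l u) a)

/-- the marked arc without the clauses about images -/
def SMA (z : Pt) (L R : List Pt) : Prop :=
  ∃ f l lo hi, lo = G.lo W z (bas W z L) f ∧ hi = G.hi W z (bas W z R) l ∧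
    G.Cross c z (itr W z L) (itr W z R) f l ∧ (∀ v ∈ itr W z L, v ∉ itr W z R) ∧
    (G.Pocket k z (bas W z L) (itr W z L) (itr W z R) (bas W z R) lo hi ∨
     G.AltL k z (bas W z L) (itr W z L) (bas W z R) lo hi ∨
     G.AltR k z (bas W z L) (itr W z R) (bas W z R) lo hi)

/-- the family of `z` returns to the tube or to the old walk -/
def SSP (z : Pt) (γ : List Pt) (y : Pt) : Prop :=
  ∃ B st, γ = B ++ G.nb z (c z) :: z :: st ∧ (∀ v ∈ B, ¬Wz W z v) ∧ (W z y ∨ (y ∈ st ∧ ¬W z y))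

/-- the walk closes a cycle which has no image -/
def SSF (z : Pt) (γ : List Pt) (y : Pt) : Prop :=
  ∃ P st, γ = P ++ y :: st ∧ z ∉ st ∧ ¬Wz W z y ∧
    (G.SMA W c k z γ (y :: st) ∨ G.SMA W c k z (y :: st) γ)

def SBad (z : Pt) (γ : List Pt) (y : Pt) : Prop :=
  G.Hm o N z ∧ k < G.dg z ∧ G.Hm o N y ∧
    (G.SSP W c z γ y ∨ G.Viol W c k z γ y ∨ G.SSF W c k z γ y)

variable {G W c k o N} {z t v y top : Pt} {w γ s st l : List Pt} {a b : ℕ} {u : List ℕ}

theorem s_lev (X : G.SCx W c k o) (h : G.Hm o N v) : 2 ≤ v.1 := X.lev.trans h.1.1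

theorem s_root (X : G.SCx W c k o) : ¬G.Hm o N (G.nb o 0) := fun h => by
  have := h.1.1
  have := X.lev
  rw [nb_zero] at *
  omega

theorem SWk.sfx (h : G.SWk o N γ) (hs : s <:+ γ) (h2 : 2 ≤ s.length) : G.SWk o N s :=
  ⟨List.suffix_of_suffix_length_le h.root hs h2, fun v hv => h.dom v (hs.subset hv),
    h.ch.suffix hs, h.nd.sublist hs.sublist⟩

theorem SWk.two (h : G.SWk o N γ) : 2 ≤ γ.length := h.root.length_le

theorem SWk.last (h : G.SWk o N γ) : γ.getLast? = some (G.nb o 0) := by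
  obtain ⟨B, rfl⟩ := h.root
  simp

/-- every vertex except the last one is real -/
theorem SWk.hm (h : G.SWk o N (s ++ v :: w)) (hw : w ≠ []) : G.Hm o N v := by
  refine (h.dom v (by simp)).resolve_right fun e => ?_
  have h1 := h.last
  rw [List.getLast?_append_of_ne_nil _ (by simp), List.getLast?_cons_of_ne_nil hw] at h1
  exact (List.nodup_cons.1 h.nd.of_append_right).1 (e ▸ List.mem_of_getLast? h1)

theorem SWk.at (X : G.SCx W c k o) (h : G.SWk o N (s ++ v :: w)) (hv : G.Hm o N v) :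
    G.SWk o N (v :: w) := by
  refine h.sfx (List.suffix_append _ _) ?_
  obtain _ | ⟨a, w⟩ := w
  · have h1 := h.last
    simp only [List.getLast?_append, List.getLast?_singleton, Option.some_or,
      Option.some.injEq] at h1
    exact absurd (h1 ▸ hv) (s_root X)
  · simp

theorem s_hdr_eq (hz : 1 ≤ z.1) (h : G.Adj z t) (hW : G.TubeOK W c) (h7 : 7 ≤ k) (hk : k ≤ G.dg z) :
    ∃ ρ : ℕ → ℕ, ∀ a, 1 ≤ a → a < k → G.hdr W c k z (t :: w) a = G.lk z (G.ps z t + ρ a) ∧
      1 ≤ ρ a ∧ ρ a < G.dg z ∧ (∀ b, ρ a = ρ b → a = b) ∧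
      (k < G.dg z → G.ps z t + ρ a ≠ c z ∧ G.ps z t + ρ a ≠ c z + G.dg z) := by
  have h1 := (ps_spec hz h).1
  have h2 := hW.cp z
  refine ⟨fun a => if a < (G.blk W c k z (t :: w) + G.dg z - G.ps z t) % G.dg z then a
    else a + (G.dg z - k), fun a a1 a2 => ?_⟩
  dsimp only
  refine ⟨rfl, by split_ifs <;> omega, by split_ifs <;> omega,
    fun b => by split_ifs <;> omega, fun h3 => ?_⟩
  have e : G.ps z t = c z ∨ ((G.ps z t < c z ∨ G.dg z + c z ≤ G.ps z t + k) ∧
      G.blk W c k z (t :: w) = c z) ∨ (c z < G.ps z t ∧ G.ps z t + k < G.dg z + c z ∧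
      G.blk W c k z (t :: w) = G.ps z t + k - G.dg z) := by
    rw [blk]
    simp only [List.headD_cons]
    split_ifs <;> omega
  rcases e with e | ⟨e, e'⟩ | ⟨e, e', e''⟩
  · split_ifs <;> omega
  · rw [e', mod_two (by omega)]
    split_ifs <;> omega
  · rw [e'', mod_two (by omega)]
    split_ifs <;> omega

theorem s_hdr (X : G.SCx W c k o) (hz : 1 ≤ z.1) (h : G.Adj z t) (a1 : 1 ≤ a) (a2 : a < k) :
    G.Adj z (G.hdr W c k z (t :: w) a) ∧ G.hdr W c k z (t :: w) a ≠ t ∧
      (k < G.dg z → G.hdr W c k z (t :: w) a ≠ G.nb z (c z)) ∧ ∀ b, 1 ≤ b → b < k →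
        G.hdr W c k z (t :: w) a = G.hdr W c k z (t :: w) b → a = b := by
  obtain ⟨ρ, hρ⟩ := s_hdr_eq (w := w) hz h X.tube X.h7 (X.deg z hz)
  obtain ⟨h1, h2, h3, h4, h5⟩ := hρ a a1 a2
  have h6 := (ps_spec hz h).1
  have h7 := X.tube.cp z
  have h8 := G.seven_le z
  refine ⟨h1 ▸ adj_lk hz _, fun e => ?_, fun hk e => ?_, fun b b1 b2 e => h4 b ?_⟩
  · have := congrArg (G.ps z) e
    rw [h1, ps_lk hz (by omega)] at this
    split_ifs at this <;> omega
  · have := congrArg (G.ps z) e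
    rw [h1, ps_lk hz (by omega), ps_nb hz (by omega)] at this
    have := h5 hk
    split_ifs at * <;> omega
  · obtain ⟨g1, g2, g3, -⟩ := hρ b b1 b2
    have := congrArg (G.ps z) e
    rw [h1, g1, ps_lk hz (by omega), ps_lk hz (by omega)] at this
    split_ifs at this <;> omega

theorem SWk.shape (X : G.SCx W c k o) (h : G.SWk o N γ) :
    ∃ z t w, γ = z :: t :: w ∧ G.Hm o N z ∧ 1 ≤ z.1 ∧ G.Adj z t := by
  have := h.two
  obtain _ | ⟨z, _ | ⟨t, w⟩⟩ := γ
  · simp at this
  · simp at this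
  have h1 : G.Hm o N z := SWk.hm (s := []) h (by simp)
  exact ⟨z, t, w, rfl, h1, by have := s_lev X h1; omega, (List.isChain_cons_cons.1 h.ch).1⟩

theorem SAl.wk (X : G.SCx W c k o) (hl : G.SWk o N l) (h : G.SAl W c k o N t l u) :
    G.SWk o N (grow (G.srx W c k) l u) := by
  induction u with
  | nil => exact hl
  | cons a u ih =>
    have ih := ih h.1
    obtain ⟨h1, h2, -, -, h3⟩ := h.2
    obtain ⟨z, t, w, e, -, e1, e2⟩ := ih.shape X
    rw [grow]
    rw [e] at ih h2 h3 ⊢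
    exact ⟨ih.root.trans (List.suffix_cons _ _), List.forall_mem_cons.2 ⟨Or.inl h2, ih.dom⟩,
      List.isChain_cons_cons.2 ⟨(s_hdr X e1 e2 h1.1 h1.2).1.symm, ih.ch⟩,
      List.nodup_cons.2 ⟨h3, ih.nd⟩⟩

/-- every step beyond the launch is an accepted letter -/
theorem SAl.dart (h : G.SAl W c k o N t l u) (h1 : v :: w <:+ grow (G.srx W c k) l u) (h2 : l <:+ w) :
    ∃ a u', G.SAl W c k o N t l (a :: u') ∧ a :: u' <:+ u ∧ w = grow (G.srx W c k) l u' ∧
      v = G.srx W c k w a := by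
  induction u with
  | nil =>
    have := h1.length_le
    have := h2.length_le
    simp [grow] at *
    omega
  | cons a u ih =>
    rcases List.suffix_cons_iff.1 h1 with e | e
    · obtain ⟨e1, rfl⟩ := List.cons.inj e
      exact ⟨a, u, h, List.suffix_rfl, rfl, e1⟩
    · obtain ⟨b, u', g1, g2, g3⟩ := ih h.1 e
      exact ⟨b, u', g1, g2.trans (List.suffix_cons _ _), g3⟩

theorem rx_inj (X : G.SCx W c k o) (h : G.SWk o N γ) (a1 : 1 ≤ a ∧ a < k) (b1 : 1 ≤ b ∧ b < k)
    (e : G.srx W c k γ a = G.srx W c k γ b) : a = b := by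
  obtain ⟨z, t, w, rfl, -, e1, e2⟩ := h.shape X
  exact (s_hdr X e1 e2 a1.1 a1.2).2.2.2 b b1.1 b1.2 e

/-- the walk determines the launch and the word -/
theorem s_decode (X : G.SCx W c k o) {l' u' t'} (hl : G.SLa c k o N l) (hl' : G.SLa c k o N l')
    (h : G.SAl W c k o N t l u) (h' : G.SAl W c k o N t' l' u')
    (e : grow (G.srx W c k) l u = grow (G.srx W c k) l' u') : l = l' ∧ u = u' := by
  have key : ∀ {l l' u u' t}, G.SLa c k o N l → G.SLa c k o N l' → G.SAl W c k o N t l u →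
      grow (G.srx W c k) l u = grow (G.srx W c k) l' u' → l'.length ≤ l.length := by
    intro l l' u u' t hl hl' h e
    by_contra e0
    have h1 : l' <:+ grow (G.srx W c k) l u := e ▸ grow_suffix u'
    rcases hl'.2 with rfl | ⟨z, st, rfl, h2, h3⟩
    · exact e0 hl.1.two
    obtain ⟨a, u'', g1, -, g3, g4⟩ := h.dart h1 (List.suffix_of_suffix_length_le (grow_suffix u)
      ((List.suffix_cons _ _).trans h1) (by simp at e0 ⊢; omega))
    obtain ⟨z', t, w, e1, -, e2, e3⟩ := (g1.1.wk X hl.1).shape X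
    rw [← g3] at e1
    obtain ⟨rfl, rfl⟩ := List.cons.inj e1
    exact (s_hdr X e2 e3 g1.2.1.1 g1.2.1.2).2.2.1 h3 g4.symm
  obtain rfl : l = l' := (List.suffix_of_suffix_length_le (grow_suffix u) (e ▸ grow_suffix u')
    (key hl' hl h' e.symm)).eq_of_length_le (key hl hl' h e)
  refine ⟨rfl, ?_⟩
  induction u generalizing u' with
  | nil =>
    have := congrArg List.length e
    rw [grow_length, grow_length] at this
    exact (List.length_eq_zero_iff.1 (by simpa using this.symm)).symm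
  | cons a u ih =>
    obtain _ | ⟨b, u'⟩ := u'
    · have := congrArg List.length e
      rw [grow_length, grow_length] at this
      simp at this
    obtain ⟨e1, e2⟩ := List.cons.inj e
    obtain rfl := ih h.1 h'.1 e2
    rw [rx_inj X (h.1.wk X hl.1) h.2.1 h'.2.1 e1]

theorem s_rt_mono {g : ℕ} (h2 : 2 ≤ g) (hg : g + 1 ≤ G.gap z + 2) (h : G.Rt z (g + 1) v) :
    G.Rt z g v := by
  have key : ∀ i, G.lr (G.nb z g) i ≤ G.lr (G.nb z (g + 1)) i := fun i => by
    induction i with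
    | zero => rw [lr, lr, G.nb_ch z h2 (by omega), G.nb_ch z (by omega) hg]; simp only; omega
    | succ i ih =>
      rw [lr, lr, show (G.nb z g).1 = (G.nb z (g + 1)).1 by
        rw [G.nb_ch z h2 (by omega), G.nb_ch z (by omega) hg]]
      exact G.A_le (by omega)
  unfold Rt at h ⊢
  split_ifs at h ⊢
  exacts [h, (key _).trans h]

/-- a marked arc whose mark ends in the tube is a violation -/
theorem SMA.viol (X : G.SCx W c k o) (hk : k < G.dg z) (hy : W z y)
    (h : G.SMA W c k z γ (y :: st) ∨ G.SMA W c k z (y :: st) γ) : G.Viol W c k z γ y := by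
  have h3 := gap_ge X.h7 hk
  have hc := X.tube.cp z
  have r1 := rt_nb (G := G) (z := z) (g := c z) (by omega) (by omega) (i := c z) (by omega) (by omega)
  have r2 := rt_nb (G := G) (z := z) (g := c z + 1) (by omega) (by omega) (i := c z) (by omega)
    (by omega)
  rcases h with ⟨f, l, -, -, -, -, C, -⟩ | ⟨f, l, -, -, -, -, C, -⟩
  · have h1 := C.fst
    have h2 := C.lst
    have h4 := s_rt_mono (by omega) (by omega) C.right
    rw [itr_neg (Or.inr hy), List.append_nil] at h1 h2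
    exact ⟨l, f, by simpa using h2, by simpa using h1, Or.inr ⟨hy,
      fun e => C.left (e.2 ▸ r1.2 le_rfl), fun e => C.left (e.2 h4)⟩⟩
  · have h1 := C.fst
    have h2 := C.lst
    have h4 := s_rt_mono (by omega) (by omega) C.right
    rw [itr_neg (Or.inr hy), List.reverse_nil, List.nil_append] at h1 h2
    exact ⟨f, l, h1, h2, Or.inr ⟨hy, fun e => by have := r2.1 (e.2 ▸ C.right); omega,
      fun e => C.left (e.1 h4)⟩⟩

theorem MArc.sma {V' : Type} {T' : PlaneTri V'} {ψ : Pt → V'} {L R : List Pt}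
    (h : G.MArc W c k T' ψ z L R s) : G.SMA W c k z L R := by
  obtain ⟨f, l, lo, hi, h1, h2, h3, h4, -, -, h5⟩ := h
  exact ⟨f, l, lo, hi, h1, h2, h3, h4, h5.imp_right (Or.imp And.left And.left)⟩

variable {V V' : Type} {T : PlaneTri V} {T' : PlaneTri V'} {ψ : Pt → V'} {d x₀ t₀ : V'}

theorem mx_map {B : List Pt} (e : B ++ top :: t :: st = v :: w) :
    T'.mx d ((B ++ [top, t]).map ψ) a = T'.rot (ψ v) (ψ (w.headD v)) a := by
  obtain _ | ⟨b, _ | ⟨b', B⟩⟩ := B <;> obtain ⟨rfl, rfl⟩ := List.cons.inj e <;> rfl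

theorem SAl.step (h : G.SAl W c k o N t (top :: t :: st) u) {B : List Pt}
    (e : grow (G.srx W c k) (top :: t :: st) u = B ++ top :: t :: st)
    (e' : (B ++ [top, t]).map ψ = grow (T'.mx d) [x₀, t₀] u)
    (h1 : y :: v :: w <:+ B ++ top :: t :: st) (h2 : t :: st <:+ w) :
    G.Stp W c k T' ψ v w y (ψ y) := by
  induction u generalizing B with
  | nil =>
    have := h1.length_le
    have := h2.length_le
    have := congrArg List.length e
    simp only [grow, List.length_append, List.length_cons] at *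
    omega
  | cons a u ih =>
    obtain _ | ⟨b, B⟩ := B
    · have := congrArg List.length e
      rw [grow_length] at this
      simp at this
    obtain ⟨e1, e2⟩ := List.cons.inj e
    obtain ⟨e3, e4⟩ := List.cons.inj e'
    rcases List.suffix_cons_iff.1 h1 with g | g
    · obtain ⟨rfl, g'⟩ := List.cons.inj g
      refine ⟨a, h.2.1.1, h.2.1.2, ?_, ?_⟩
      · rw [← e1, e2]; exact congrArg (G.srx W c k · a) g'.symm
      · rw [e3, ← e4]; exact mx_map g'.symm
    · exact ih h.1 e2 e4 g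

/-- classification of the stops -/
theorem s_stop (X : G.SCx W c k o) (E : Emb G T) (hk : ∀ v, k ≤ T.deg v) (hT' : ∀ v, T'.deg v = k)
    (hl : G.SLa c k o N (top :: t :: st)) (h : G.SAl W c k o N t (top :: t :: st) u)
    (h0 : T'.G.Adj x₀ t₀) (hv : T'.Vl d k x₀ t₀ (a :: u))
    (hn : ¬G.SAl W c k o N t (top :: t :: st) (a :: u))
    (eγ : γ = grow (G.srx W c k) (top :: t :: st) u) (ey : y = G.srx W c k γ a) :
    ¬G.Hm o N y ∨ ∃ z, G.SBad W c k o N z γ y := by
  rw [or_iff_not_imp_left, not_not]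
  intro hy
  have ha := hv.1 a (by simp)
  have wk := eγ ▸ h.wk X hl.1
  obtain ⟨B, eB, lB⟩ := grow_new (G.srx W c k) (top :: t :: st) u
  have ok : ∀ v w, v :: w <:+ γ → top :: t :: st <:+ w → G.SOk W c k o N t w v := by
    intro v w h1 h2
    obtain ⟨b, u', g1, -, rfl, rfl⟩ := h.dart (eγ ▸ h1) h2
    exact g1.2.2
  have nr : G.Hm o N t → top = G.nb t (c t) ∧ k < G.dg t := fun ht => by
    rcases hl.2 with e | ⟨z, s, e, -, h3⟩
    · simp only [List.cons.injEq] at e
      exact absurd (e.2.1 ▸ ht) (s_root X)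
    · simp only [List.cons.injEq] at e
      obtain ⟨rfl, rfl, -⟩ := e
      exact ⟨rfl, h3⟩
  have sp : W t y ∨ y ∈ st ∧ ¬W t y → ∃ z, G.SBad W c k o N z γ y := fun e => by
    have ht : G.Hm o N t := by
      rcases hl.2 with e' | ⟨z, s, e', h2, -⟩ <;> simp only [List.cons.injEq] at e'
      · obtain ⟨-, rfl, rfl⟩ := e'
        rcases e with e | e
        · have := (X.tube.lev _ _ e).1
          have := hy.1.1
          have := X.lev
          rw [nb_zero] at *
          omega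
        · simp at e
      · exact e'.2.1 ▸ h2
    refine ⟨t, ht, (nr ht).2, hy, Or.inl ⟨B, st, by rw [eγ, eB, (nr ht).1], fun v hv => ?_, e⟩⟩
    obtain ⟨B1, B2, rfl⟩ := List.append_of_mem hv
    have := ok v (B2 ++ top :: t :: st) (by rw [eγ, eB]; simp) (List.suffix_append _ _)
    rintro (rfl | e')
    exacts [this.2.2.2 (by simp), this.2.1 e']
  by_cases c1 : W t y
  · exact sp (Or.inl c1)
  by_cases c2 : ∃ z, G.Hm o N z ∧ k < G.dg z ∧ G.Viol W c k z γ y
  · obtain ⟨z, h1, h2, h3⟩ := c2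
    exact ⟨z, h1, h2, hy, Or.inr (Or.inl h3)⟩
  have c3 : y ∈ γ := by
    by_contra e
    exact hn ⟨h, ha, by rw [← eγ, ← ey]; exact ⟨hy, c1, fun z h1 h2 h3 => c2 ⟨z, h1, h2, h3⟩, e⟩⟩
  by_cases c4 : y ∈ st
  · exact sp (Or.inr ⟨c4, c1⟩)
  have e1 : γ = (B ++ [top, t]) ++ st := by rw [eγ, eB]; simp
  obtain ⟨P, R, eP⟩ := List.append_of_mem ((List.mem_append.1 (e1 ▸ c3)).resolve_right c4)
  have e2 : γ = P ++ y :: (R ++ st) := by rw [e1, eP]; simp
  obtain ⟨ψ, hψ⟩ := s_exists_map d (l := B ++ [top, t]) (e1 ▸ wk.nd).of_append_left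
    (m := grow (T'.mx d) [x₀, t₀] u) (by simp [grow_length, lB])
  have nd := List.nodup_cons.1 (show (T'.mx d _ a :: grow (T'.mx d) [x₀, t₀] u).Nodup from hv.2)
  rw [← hψ] at nd
  have wy := SWk.at X (e2 ▸ wk) hy
  have sf : t :: st <:+ y :: (R ++ st) := List.suffix_of_suffix_length_le
    (l₃ := γ) (by rw [eγ, eB]; exact (List.suffix_cons _ _).trans (List.suffix_append _ _))
    (e2 ▸ List.suffix_append _ _) (by simp)
  have rule : ∀ z, G.Hm o N z → k < G.dg z → ∀ v w, v :: w <:+ γ → y :: (R ++ st) <:+ w →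
      ¬G.Viol W c k z w v := by
    intro z h1 h2 v w h3 h4
    by_cases e : (t :: st).length < w.length
    · exact (ok v w h3 (List.suffix_of_suffix_length_le (eγ ▸ grow_suffix u)
        ((List.suffix_cons _ _).trans h3) e)).2.2.1 z h1 h2
    obtain rfl : t :: st = w := (sf.trans h4).eq_of_length_le (not_lt.1 e)
    obtain rfl : v = top := by
      have := (List.suffix_of_suffix_length_le h3 (l₂ := top :: t :: st) (eγ ▸ grow_suffix u)
        (by simp)).eq_of_length rfl
      exact (List.cons.inj this).1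
    have ht : G.Hm o N t := (List.cons.inj (sf.eq_of_length_le h4.length_le)).1 ▸ hy
    rintro ⟨x, f, g1, -, g2⟩
    rw [itr_neg (X.par z t (nr ht).2 (by have := s_lev X ht; omega)
      ((nr ht).1 ▸ g2.imp And.left And.left))] at g1
    simp at g1
  obtain ⟨x, x', w, e3, hx, x1, x2⟩ := wk.shape X
  have sy := s_hdr (w := w) X x1 x2 ha.1 ha.2
  rw [show G.hdr W c k x (x' :: w) a = y by rw [ey, e3]; rfl] at sy
  obtain ⟨P', rfl, hP⟩ : ∃ P', P = x :: P' ∧ P' ≠ [] := by
    rw [e3] at e2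
    obtain _ | ⟨p, _ | ⟨q, P⟩⟩ := P
    · exact absurd (List.cons.inj e2).1 sy.1.ne
    · exact absurd (List.cons.inj (List.cons.inj e2).2).1.symm sy.2.1
    · exact ⟨q :: P, by rw [(List.cons.inj e2).1], by simp⟩
  have sub : ∀ v ∈ x :: P' ++ [] ++ [y], v ∈ B ++ [top, t] := fun v hv => by
    rw [eP]; simp at hv ⊢; tauto
  have ne : R ++ st ≠ [] := fun e => by have := wy.two; simp [e] at this
  have F : G.Fail W c k T' ψ o N (x :: P') [] y (R ++ st) := by
    refine ⟨⟨X.lev, X.cone⟩, by rw [← wy.last, List.getLast?_cons_of_ne_nil ne], fun v hv =>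
      (wy.dom v (List.mem_cons_of_mem _ hv)).imp_left fun g => ⟨cone_trans X.cone g.1, g.1.1⟩, hy,
      by rw [List.append_nil, ← e2]; exact wk.nd, ⟨fun v hv => ?_, e2 ▸ wk.ch, ?_,
        fun z h1 h2 v w h3 h4 _ => rule z h1 h2 v w (e2 ▸ h3) h4, fun p v w h1 h2 => ?_⟩,
      ⟨by simp, wy.ch, by simp, fun z _ _ v w h1 h2 => ?_, fun p v w h1 h2 => ?_⟩,
      by have := List.length_pos_iff.2 hP; simp; omega, sy.1,
      fun p hp q hq => List.inj_on_of_nodup_map nd.2 (sub p hp) (sub q hq), by simp⟩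
    · obtain ⟨P1, P2, e⟩ := List.append_of_mem hv
      exact SWk.hm (s := P1) (w := P2 ++ y :: (R ++ st)) (by rw [e] at e2; simpa [e2] using wk)
        (by simp)
    · have := mx_chain (d := d) h0 u
      rw [← hψ, List.isChain_map, eP] at this
      exact ch_pfx this ⟨R, by simp⟩
    · exact h.step eB hψ (by rw [← eB, ← eγ, e2]; exact h1) (sf.trans h2)
    · have := h1.length_le
      have := h2.length_le
      simp at *
      omega
    · have := h1.length_le
      have := h2.length_le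
      simp at *
      omega
  have e4 : x' :: w = P' ++ y :: (R ++ st) := (List.cons.inj (e3.symm.trans e2)).2
  obtain ⟨z, z1, z2, -, z4, z5, -, z6⟩ := topo E X.tube X.h7 hk hT' F (Or.inl ⟨x, P',
    T'.mx d ((B ++ [top, t]).map ψ) a, rfl, ⟨a, ha.1, ha.2, by rw [← e4, ey, e3]; rfl,
      mx_map (by rw [← eB, ← eγ, e2]; rfl)⟩, fun g => rule x hx g x _ (by rw [e2]; rfl)
      (List.suffix_append _ _), fun v hv e => nd.1 (e ▸ List.mem_map_of_mem (sub v hv))⟩)
  have z7 := z6.imp MArc.sma MArc.sma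
  rw [List.nil_append, ← e2] at z7
  refine ⟨z, z1, z2, hy, Or.inr (Or.inr ⟨_, _, e2, z4, ?_, z7⟩)⟩
  rintro (e | e)
  exacts [z5 e.symm, c2 ⟨z, z1, z2, SMA.viol X z2 e z7⟩]

end Grid
end Pool.Agent.P.MP_e4ac67_pr.Gr
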